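import Pool.Agent.H30OB.Outer

/-!
# Perturbations of the unit ball, ellipsoids, and the cones of a complex line
-/

set_option autoImplicit false
set_option linter.unusedSectionVars false

open Set Filter Topology
open scoped RealInnerProductSpace ContDiff

namespace Pool.Agent.H30OB

open Pool.Agent.H703R3.MB

variable {m : ℕ}

/-- an ellipsoid which coincides with the unit ball near one unit vector is the unit ball -/
theorem ellipsoid_eq_ball {K : Set (Sym m)} (hE : IsEllipsoid K) {y₀ : Sym m} (hy : ‖y₀‖ = 1)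
    (hnear : ∀ᶠ z in 𝓝 y₀, (z ∈ K ↔ ‖z‖ ≤ 1)) : K = Metric.closedBall 0 1 := by
  obtain ⟨A, hA⟩ := hE
  have hmem : ∀ x, x ∈ K ↔ ‖A.symm x‖ ≤ 1 := by
    intro x
    rw [hA]
    constructor
    · rintro ⟨u, hu, rfl⟩
      rw [AffineEquiv.symm_apply_apply]
      simpa using hu
    · intro hx
      exact ⟨A.symm x, by simpa using hx, by rw [AffineEquiv.apply_symm_apply]⟩
  have hb : ∀ x, A.symm x = A.symm.linear x + A.symm 0 := by
    intro x
    have := A.symm.map_vadd 0 x
    simpa [vadd_eq_add] using this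
  have hcA : Continuous fun x => A.symm x := A.symm.continuous_of_finiteDimensional
  -- the unit vectors near `y₀`
  have hloc : ∀ᶠ x in 𝓝 y₀, ‖x‖ = 1 → ‖A.symm x‖ = 1 := by
    filter_upwards [hnear.eventually_nhds] with x hx hx1
    refine le_antisymm ((hmem x).1 (hx.self_of_nhds.2 hx1.le)) ?_
    have hc : Tendsto (fun s : ℝ => (1 + s) • x) (𝓝 0) (𝓝 x) := by
      have : Continuous fun s : ℝ => (1 + s) • x := by fun_prop
      simpa using this.tendsto 0
    have h1 : ∀ᶠ s in 𝓝[>] (0 : ℝ), 1 ≤ ‖A.symm ((1 + s) • x)‖ := by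
      have h2 : ∀ᶠ s in 𝓝[>] (0 : ℝ), ((1 + s) • x ∈ K ↔ ‖(1 + s) • x‖ ≤ 1) :=
        (hc.eventually hx).filter_mono nhdsWithin_le_nhds
      filter_upwards [h2, self_mem_nhdsWithin] with s hs hs0
      have hs0' : (0 : ℝ) < s := hs0
      by_contra hlt
      rw [not_le] at hlt
      have h3 := hs.1 ((hmem _).2 hlt.le)
      rw [norm_smul, hx1, mul_one, Real.norm_eq_abs, abs_of_pos (by linarith)] at h3
      linarith
    have h2 : Tendsto (fun s : ℝ => ‖A.symm ((1 + s) • x)‖) (𝓝[>] 0) (𝓝 ‖A.symm x‖) :=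
      ((hcA.norm.tendsto x).comp hc).mono_left nhdsWithin_le_nhds
    exact ge_of_tendsto h2 h1
  -- great circles through `y₀`
  have hcirc : ∀ w : Sym m, ‖w‖ = 1 → ⟪y₀, w⟫ = 0 → ∀ t : ℝ,
      ‖A.symm (Real.cos t • y₀ + Real.sin t • w)‖ ^ 2 = 1 := by
    intro w hw hyw
    set γ : ℝ → Sym m := fun t => Real.cos t • y₀ + Real.sin t • w with hγ
    have hγn : ∀ t, ‖γ t‖ = 1 := by
      intro t
      have h1 : ‖γ t‖ ^ 2 = 1 := by
        rw [hγ]
        simp only
        rw [norm_add_sq_real, norm_smul, norm_smul, real_inner_smul_left, real_inner_smul_right,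
          hyw, hw, hy, Real.norm_eq_abs, Real.norm_eq_abs, mul_one, mul_one, sq_abs, sq_abs]
        have := Real.sin_sq_add_cos_sq t
        linarith
      have := norm_nonneg (γ t)
      nlinarith
    have hγc : Continuous γ := by
      rw [hγ]
      fun_prop
    have hF : ∀ᶠ t in 𝓝 (0 : ℝ), ‖A.symm (γ t)‖ ^ 2 = 1 := by
      have hγ0 : Tendsto γ (𝓝 0) (𝓝 y₀) := by
        have := hγc.tendsto 0
        have e : γ 0 = y₀ := by rw [hγ]; simp
        rwa [e] at this
      filter_upwards [hγ0.eventually hloc] with t ht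
      rw [ht (hγn t), one_pow]
    have hcd : ContDiff ℝ ω fun t : ℝ => ‖A.symm (γ t)‖ ^ 2 := by
      have e : (fun t : ℝ => ‖A.symm (γ t)‖ ^ 2) = fun t : ℝ =>
          ‖Real.cos t • A.symm.linear y₀ + Real.sin t • A.symm.linear w + A.symm 0‖ ^ 2 := by
        ext t
        rw [hb, hγ]
        simp only
        rw [map_add, map_smul, map_smul]
      rw [e]
      apply ContDiff.norm_sq ℝ
      have h1 : ContDiff ℝ ω Real.cos := Real.contDiff_cos
      have h2 : ContDiff ℝ ω Real.sin := Real.contDiff_sin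
      exact ((h1.smul contDiff_const).add (h2.smul contDiff_const)).add contDiff_const
    have han : AnalyticOnNhd ℝ (fun t : ℝ => ‖A.symm (γ t)‖ ^ 2) univ :=
      contDiff_omega_iff_analyticOnNhd.1 hcd
    have hall := han.eq_of_eventuallyEq (g := fun _ => (1 : ℝ)) (z₀ := 0) analyticOnNhd_const hF
    intro t
    exact congrFun hall t
  -- all unit vectors
  have hunit : ∀ u : Sym m, ‖u‖ = 1 → ‖A.symm u‖ = 1 := by
    intro u hu
    have key : ‖A.symm u‖ ^ 2 = 1 := by
      set a := ⟪y₀, u⟫ with ha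
      set v := u - a • y₀ with hv
      have hvy : ⟪y₀, v⟫ = 0 := by
        rw [hv, inner_sub_right, real_inner_smul_right, real_inner_self_eq_norm_sq, hy]
        rw [← ha]; ring
      have huv : u = a • y₀ + v := by rw [hv]; abel
      have hnv : ‖v‖ ^ 2 = 1 - a ^ 2 := by
        have h1 : ‖u‖ ^ 2 = a ^ 2 + ‖v‖ ^ 2 := by
          rw [huv, norm_add_sq_real, real_inner_smul_left, hvy, norm_smul, hy, mul_one,
            Real.norm_eq_abs, sq_abs]
          ring
        rw [hu] at h1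
        linarith
      by_cases h0 : v = 0
      · have ha2 : a ^ 2 = 1 := by
          rw [h0, norm_zero] at hnv
          linarith
        have hJ := hcirc (J y₀) (by rw [norm_J, hy]) (J_inner_self y₀)
        rw [h0, add_zero] at huv
        have h1 : a = 1 ∨ a = -1 := by
          rcases mul_eq_zero.1 (show (a - 1) * (a + 1) = 0 by linarith [sq a]) with h | h
          · left; linarith
          · right; linarith
        rcases h1 with h1 | h1
        · have := hJ 0
          rw [Real.cos_zero, Real.sin_zero, zero_smul, add_zero] at this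
          rw [huv, h1]; exact this
        · have := hJ Real.pi
          rw [Real.cos_pi, Real.sin_pi, zero_smul, add_zero] at this
          rw [huv, h1]; exact this
      · have hpos : 0 < ‖v‖ := norm_pos_iff.2 h0
        have h1 := hcirc (‖v‖⁻¹ • v) (by
          rw [norm_smul, norm_inv, norm_norm, inv_mul_cancel₀ hpos.ne']) (by
          rw [real_inner_smul_right, hvy, mul_zero]) (Real.arccos a)
        have ha1 : -1 ≤ a := by nlinarith
        have ha2 : a ≤ 1 := by nlinarith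
        have hs : Real.sqrt (1 - a ^ 2) = ‖v‖ := by
          rw [← hnv, Real.sqrt_sq hpos.le]
        rw [Real.cos_arccos ha1 ha2, Real.sin_arccos, hs, smul_smul, mul_inv_cancel₀ hpos.ne',
          one_smul, ← huv] at h1
        exact h1
    have := norm_nonneg (A.symm u)
    nlinarith
  -- the centre
  have hne : A.symm y₀ ≠ A.symm (-y₀) := by
    intro h
    have h1 := A.symm.injective h
    have h2 : (2 : ℝ) • y₀ = 0 := by
      have : (2 : ℝ) • y₀ = y₀ - (-y₀) := by module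
      rw [this, ← h1, sub_self]
    rcases smul_eq_zero.1 h2 with h3 | h3
    · norm_num at h3
    · rw [h3, norm_zero] at hy
      exact zero_ne_one hy
  have hn1 := hunit y₀ hy
  have hn2 := hunit (-y₀) (by rw [norm_neg, hy])
  have hmid : A.symm 0 = (1 / 2 : ℝ) • (A.symm y₀ + A.symm (-y₀)) := by
    rw [hb y₀, hb (-y₀), map_neg]
    module
  have hzero : ‖A.symm 0‖ < 1 := by
    have h1 : ⟪A.symm y₀, A.symm (-y₀)⟫ < 1 := by
      have h2 := real_inner_le_norm (A.symm y₀) (A.symm (-y₀))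
      rw [hn1, hn2, one_mul] at h2
      exact lt_of_le_of_ne h2 fun h3 => hne ((inner_eq_one_iff_of_norm_eq_one hn1 hn2).1 h3)
    have h2 : ‖A.symm 0‖ ^ 2 < 1 := by
      rw [hmid, norm_smul, mul_pow, norm_add_sq_real, hn1, hn2, Real.norm_eq_abs, sq_abs]
      linarith
    nlinarith [norm_nonneg (A.symm 0)]
  have hseg : ∀ (x : Sym m) (s : ℝ), A.symm (s • x) = (1 - s) • A.symm 0 + s • A.symm x := by
    intro x s
    rw [hb (s • x), hb x, map_smul]
    module
  ext x
  rw [mem_closedBall_zero_iff, hmem]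
  by_cases hx0 : x = 0
  · rw [hx0, norm_zero]
    exact ⟨fun _ => zero_le_one, fun _ => hzero.le⟩
  have hpos : 0 < ‖x‖ := norm_pos_iff.2 hx0
  have hu1 : ‖‖x‖⁻¹ • x‖ = 1 := by rw [norm_smul, norm_inv, norm_norm, inv_mul_cancel₀ hpos.ne']
  constructor
  · intro hx
    by_contra hlt
    rw [not_le] at hlt
    have h1 := hunit _ hu1
    rw [hseg] at h1
    have hi0 : 0 < ‖x‖⁻¹ := by positivity
    have hi1 : ‖x‖⁻¹ < 1 := inv_lt_one_of_one_lt₀ hlt
    have h2 := norm_add_le ((1 - ‖x‖⁻¹) • A.symm 0) (‖x‖⁻¹ • A.symm x)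
    rw [h1, norm_smul, norm_smul, Real.norm_eq_abs, Real.norm_eq_abs,
      abs_of_pos (by linarith : 0 < 1 - ‖x‖⁻¹), abs_of_pos hi0] at h2
    have h3 : (1 - ‖x‖⁻¹) * ‖A.symm 0‖ < (1 - ‖x‖⁻¹) * 1 :=
      mul_lt_mul_of_pos_left hzero (by linarith)
    have h4 : ‖x‖⁻¹ * ‖A.symm x‖ ≤ ‖x‖⁻¹ * 1 := mul_le_mul_of_nonneg_left hx hi0.le
    linarith
  · intro hx
    have e : x = ‖x‖ • (‖x‖⁻¹ • x) := by rw [smul_smul, mul_inv_cancel₀ hpos.ne', one_smul]
    rw [e, hseg]
    have h2 := norm_add_le ((1 - ‖x‖) • A.symm 0) (‖x‖ • A.symm (‖x‖⁻¹ • x))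
    rw [norm_smul, norm_smul, Real.norm_eq_abs, Real.norm_eq_abs,
      abs_of_nonneg (by linarith : 0 ≤ 1 - ‖x‖), abs_of_pos hpos, hunit _ hu1] at h2
    have h3 : (1 - ‖x‖) * ‖A.symm 0‖ ≤ (1 - ‖x‖) * 1 :=
      mul_le_mul_of_nonneg_left hzero.le (by linarith)
    linarith

/-- The perturbed unit ball `{x : ‖x‖² + ε φ(x) ≤ 1}`. -/
def perturbedBall (φ : Sym m → ℝ) (ε : ℝ) : Set (Sym m) := {x | ‖x‖ ^ 2 + ε * φ x ≤ 1}

theorem perturbedBall_near {φ : Sym m → ℝ} (ε : ℝ) {y : Sym m} (hy : y ∉ tsupport φ) :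
    ∀ᶠ z in 𝓝 y, (z ∈ perturbedBall φ ε ↔ ‖z‖ ≤ 1) := by
  have h : ∀ᶠ z in 𝓝 y, φ z = 0 := notMem_tsupport_iff_eventuallyEq.1 hy
  filter_upwards [h] with z hz
  show ‖z‖ ^ 2 + ε * φ z ≤ 1 ↔ _
  rw [hz, mul_zero, add_zero, sq_le_one_iff_abs_le_one, abs_norm]

theorem perturbedBall_table {φ : Sym m → ℝ} (h1 : ContDiff ℝ ∞ φ) (h2 : HasCompactSupport φ) :
    ∃ ε₀ : ℝ, 0 < ε₀ ∧ ∀ ε : ℝ, |ε| ≤ ε₀ → IsTable (perturbedBall φ ε) ∧
      (ε ≠ 0 → (∃ y : Sym m, ‖y‖ = 1 ∧ y ∉ tsupport φ) → (∃ x : Sym m, ‖x‖ = 1 ∧ φ x ≠ 0) →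
        ¬ IsEllipsoid (perturbedBall φ ε)) := by
  obtain ⟨ε₀, hε₀, H⟩ := nice_pf h1 h2
  refine ⟨ε₀, hε₀, fun ε hε => ⟨(H ε hε).isTable, ?_⟩⟩
  rintro hne ⟨y, hy, hyφ⟩ ⟨x, hx, hxφ⟩ hE
  have h3 := ellipsoid_eq_ball hE hy (perturbedBall_near ε hyφ)
  have h4 : x ∈ frontier (perturbedBall φ ε) := by
    rw [h3, frontier_closedBall (0 : Sym m) (one_ne_zero)]
    simpa using hx
  have h5 : frontier (perturbedBall φ ε) = {x | pf φ ε x = 1} := (H ε hε).frontier_body
  rw [h5] at h4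
  have h6 : ‖x‖ ^ 2 + ε * φ x = 1 := h4
  rw [hx] at h6
  have h7 : ε * φ x = 0 := by linarith
  exact (mul_ne_zero hne hxφ) h7

/-! ### The cones around a complex line -/

/-- The square of the modulus of the complex scalar product of `x` with `w`. -/
noncomputable def lineSq (w x : Sym m) : ℝ := ⟪w, x⟫ ^ 2 + ⟪J w, x⟫ ^ 2

theorem lineSq_mul (w x : Sym m) (a b : ℝ) :
    lineSq w (a • x + b • J x) = (a ^ 2 + b ^ 2) * lineSq w x := by
  unfold lineSq
  have e1 : ⟪w, J x⟫ = -⟪J w, x⟫ := by rw [J_inner, neg_neg]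
  have e2 : ⟪J w, J x⟫ = ⟪w, x⟫ := inner_J_J w x
  rw [inner_add_right, inner_add_right, real_inner_smul_right, real_inner_smul_right,
    real_inner_smul_right, real_inner_smul_right, e1, e2]
  ring

theorem norm_mul (x : Sym m) (a b : ℝ) : ‖a • x + b • J x‖ ^ 2 = (a ^ 2 + b ^ 2) * ‖x‖ ^ 2 := by
  rw [norm_add_sq_real, norm_smul, norm_smul, real_inner_smul_left, real_inner_smul_right,
    J_inner_self, norm_J, mul_pow, mul_pow, Real.norm_eq_abs, Real.norm_eq_abs, sq_abs, sq_abs]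
  ring

/-- the projection to the complex line of `w` -/
noncomputable def proj (w x : Sym m) : Sym m := ⟪w, x⟫ • w + ⟪J w, x⟫ • J w

theorem inner_proj (w x : Sym m) : ⟪x, proj w x⟫ = lineSq w x := by
  unfold proj lineSq
  rw [inner_add_right, real_inner_smul_right, real_inner_smul_right, real_inner_comm w x,
    real_inner_comm (J w) x]
  ring

theorem norm_proj {w : Sym m} (hw : ‖w‖ = 1) (x : Sym m) : ‖proj w x‖ ^ 2 = lineSq w x := by
  unfold proj lineSq
  rw [norm_mul, hw]; ring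

theorem lineSq_proj {w : Sym m} (hw : ‖w‖ = 1) (x : Sym m) (s : ℝ) :
    lineSq w (x + s • proj w x) = (1 + s) ^ 2 * lineSq w x := by
  have e1 : ⟪w, proj w x⟫ = ⟪w, x⟫ := by
    unfold proj
    rw [inner_add_right, real_inner_smul_right, real_inner_smul_right, J_inner_self,
      real_inner_self_eq_norm_sq, hw]
    ring
  have e2 : ⟪J w, proj w x⟫ = ⟪J w, x⟫ := by
    unfold proj
    rw [inner_add_right, real_inner_smul_right, real_inner_smul_right, inner_J,
      real_inner_self_eq_norm_sq, norm_J, hw]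
    ring
  unfold lineSq
  rw [inner_add_right, inner_add_right, real_inner_smul_right, real_inner_smul_right, e1, e2]
  ring

theorem lineSq_le {w : Sym m} (hw : ‖w‖ = 1) (x : Sym m) : lineSq w x ≤ ‖x‖ ^ 2 := by
  have h : ‖x - proj w x‖ ^ 2 = ‖x‖ ^ 2 - lineSq w x := by
    rw [norm_sub_sq_real, inner_proj, norm_proj hw]; ring
  have := sq_nonneg ‖x - proj w x‖
  linarith

theorem eq_proj {w : Sym m} (hw : ‖w‖ = 1) {x : Sym m} (hx : lineSq w x = ‖x‖ ^ 2) :
    x = proj w x := by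
  have h : ‖x - proj w x‖ ^ 2 = 0 := by
    rw [norm_sub_sq_real, inner_proj, norm_proj hw, hx]; ring
  have h2 : ‖x - proj w x‖ = 0 := by
    have := sq_eq_zero_iff.1 h
    exact this
  rwa [norm_eq_zero, sub_eq_zero] at h2

theorem contDiff_lineSq (w : Sym m) : ContDiff ℝ ∞ (lineSq w) := by
  unfold lineSq
  have h1 : ContDiff ℝ ∞ fun x : Sym m => ⟪w, x⟫ := contDiff_const.inner ℝ contDiff_id
  have h2 : ContDiff ℝ ∞ fun x : Sym m => ⟪J w, x⟫ := contDiff_const.inner ℝ contDiff_id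
  exact (h1.pow 2).add (h2.pow 2)

/-- The cone `|⟨x, w⟩|² = κ ‖x‖²` around the complex line of `w`, without the origin. -/
def lineCone (w : Sym m) (κ : ℝ) : Set (Sym m) := {x | x ≠ 0 ∧ lineSq w x = κ * ‖x‖ ^ 2}

theorem exists_orth (hm : 2 ≤ m) (w : Sym m) : ∃ v : Sym m, ‖v‖ = 1 ∧ ⟪w, v⟫ = 0 ∧
    ⟪J w, v⟫ = 0 := by
  classical
  set W : Submodule ℝ (Sym m) := Submodule.span ℝ {w, J w} with hW
  have h1 : Module.finrank ℝ W ≤ 2 := by
    have h2 : Module.finrank ℝ (Submodule.span ℝ (({w, J w} : Finset (Sym m)) : Set (Sym m))) ≤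
        ({w, J w} : Finset (Sym m)).card := finrank_span_finset_le_card _
    have h3 : ({w, J w} : Finset (Sym m)).card ≤ 2 := Finset.card_le_two
    have h4 : (({w, J w} : Finset (Sym m)) : Set (Sym m)) = {w, J w} := by simp
    rw [h4] at h2
    exact h2.trans h3
  have h2 : Module.finrank ℝ (Sym m) = 2 * m := by
    rw [finrank_euclideanSpace, Fintype.card_sum, Fintype.card_fin]; ring
  have h3 := W.finrank_add_finrank_orthogonal
  have h4 : 0 < Module.finrank ℝ Wᗮ := by omega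
  obtain ⟨v, hv⟩ := Module.finrank_pos_iff_exists_ne_zero.1 h4
  have hv0 : (v : Sym m) ≠ 0 := fun h => hv (Subtype.ext h)
  have hn : 0 < ‖(v : Sym m)‖ := norm_pos_iff.2 hv0
  have hort := (Submodule.mem_orthogonal W (v : Sym m)).1 v.2
  refine ⟨‖(v : Sym m)‖⁻¹ • (v : Sym m), ?_, ?_, ?_⟩
  · rw [norm_smul, norm_inv, norm_norm, inv_mul_cancel₀ hn.ne']
  · rw [real_inner_smul_right, hort w (Submodule.subset_span (by simp)), mul_zero]
  · rw [real_inner_smul_right, hort (J w) (Submodule.subset_span (by simp)), mul_zero]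

theorem lineCone_isComplexCone (hm : 2 ≤ m) {w : Sym m} (hw : ‖w‖ = 1) {κ : ℝ} (h0 : 0 < κ)
    (h1 : κ < 1) : IsComplexCone (lineCone w κ) where
  nonempty := by
    obtain ⟨v, hv, hwv, hJv⟩ := exists_orth hm w
    have hvw : ⟪v, w⟫ = 0 := by rw [real_inner_comm]; exact hwv
    have e : ‖Real.sqrt κ • w + Real.sqrt (1 - κ) • v‖ ^ 2 = 1 := by
      rw [norm_add_sq_real, norm_smul, norm_smul, real_inner_smul_left, real_inner_smul_right, hwv,
        hw, hv, mul_one, mul_one, Real.norm_eq_abs, Real.norm_eq_abs, sq_abs, sq_abs,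
        Real.sq_sqrt h0.le, Real.sq_sqrt (by linarith)]
      ring
    refine ⟨Real.sqrt κ • w + Real.sqrt (1 - κ) • v, ?_, ?_⟩
    · intro h
      rw [h, norm_zero] at e
      norm_num at e
    · rw [e]
      unfold lineSq
      rw [inner_add_right, inner_add_right, real_inner_smul_right, real_inner_smul_right,
        real_inner_smul_right, real_inner_smul_right, hwv, hJv, inner_J,
        real_inner_self_eq_norm_sq, hw]
      have := Real.sq_sqrt h0.le
      nlinarith
  closed := by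
    refine ⟨{x | lineSq w x = κ * ‖x‖ ^ 2}, ?_, rfl⟩
    exact isClosed_eq (contDiff_lineSq w).continuous (by fun_prop)
  smooth := by
    rintro x ⟨hx0, hx⟩
    have hcd : ContDiff ℝ ∞ fun y : Sym m => lineSq w y - κ * ‖y‖ ^ 2 :=
      (contDiff_lineSq w).sub (contDiff_const.mul (contDiff_norm_sq ℝ))
    refine ⟨fun y => lineSq w y - κ * ‖y‖ ^ 2, hcd, ?_, ?_⟩
    · have h : ∀ᶠ y in 𝓝 x, y ≠ 0 := isOpen_ne.mem_nhds hx0
      filter_upwards [h] with y hy
      exact ⟨fun h => sub_eq_zero.2 h.2, fun h => ⟨hy, sub_eq_zero.1 h⟩⟩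
    · intro hd
      have hL : 0 < lineSq w x := by
        rw [hx]
        have : 0 < ‖x‖ := norm_pos_iff.2 hx0
        positivity
      have hl : HasDerivAt (fun s : ℝ => x + s • proj w x) (proj w x) 0 := by
        simpa using ((hasDerivAt_id (0 : ℝ)).smul_const (proj w x)).const_add x
      have hF : HasFDerivAt (fun y : Sym m => lineSq w y - κ * ‖y‖ ^ 2) (0 : Sym m →L[ℝ] ℝ) x := by
        have := (hcd.differentiable (by simp)).differentiableAt (x := x) |>.hasFDerivAt
        rwa [hd] at this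
      have hc : HasDerivAt (fun s : ℝ => lineSq w (x + s • proj w x) -
          κ * ‖x + s • proj w x‖ ^ 2) ((0 : Sym m →L[ℝ] ℝ) (proj w x)) 0 :=
        HasFDerivAt.comp_hasDerivAt (x := (0 : ℝ)) (f := fun s : ℝ => x + s • proj w x)
          (l := fun y : Sym m => lineSq w y - κ * ‖y‖ ^ 2) (by simpa using hF) hl
      have e : (fun s : ℝ => lineSq w (x + s • proj w x) - κ * ‖x + s • proj w x‖ ^ 2) =
          fun s : ℝ => (1 - κ) * lineSq w x * ((1 + s) ^ 2 - 1) := by
        ext s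
        rw [lineSq_proj hw, norm_add_sq_real, real_inner_smul_right, inner_proj, norm_smul,
          mul_pow, norm_proj hw, Real.norm_eq_abs, sq_abs]
        linear_combination hx
      rw [e] at hc
      have hc2 : HasDerivAt (fun s : ℝ => (1 - κ) * lineSq w x * ((1 + s) ^ 2 - 1))
          ((1 - κ) * lineSq w x * 2) 0 := by
        have h3 : HasDerivAt (fun s : ℝ => (1 + s) ^ 2 - 1) 2 (0 : ℝ) := by
          have h4 := (((hasDerivAt_id (0 : ℝ)).const_add 1).pow 2).sub_const 1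
          simpa using h4
        exact h3.const_mul _
      have h5 := hc.unique hc2
      rw [ContinuousLinearMap.zero_apply] at h5
      have : 0 < (1 - κ) * lineSq w x * 2 := by
        have : 0 < 1 - κ := by linarith
        positivity
      linarith
  mul := by
    rintro x ⟨hx0, hx⟩ a b hab
    refine ⟨?_, ?_⟩
    · intro h
      have h2 := norm_mul x a b
      rw [h, norm_zero] at h2
      have h3 : 0 < ‖x‖ := norm_pos_iff.2 hx0
      have h4 : (a ^ 2 + b ^ 2) * ‖x‖ ^ 2 ≠ 0 := mul_ne_zero hab (by positivity)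
      apply h4
      rw [← h2]; norm_num
    · rw [lineSq_mul, norm_mul, hx]; ring

/-- a compact set that misses the circle of `w` is away from the cones close to the circle -/
theorem exists_kappa {w : Sym m} (hw : ‖w‖ = 1) {C : Set (Sym m)} (hC : IsCompact C)
    (hmiss : ∀ a b : ℝ, a ^ 2 + b ^ 2 = 1 → a • w + b • J w ∉ C) :
    ∃ κ₀ : ℝ, 0 < κ₀ ∧ κ₀ < 1 ∧ ∀ x ∈ C, ‖x‖ = 1 → lineSq w x < κ₀ := by
  have hlt : ∀ x ∈ C, ‖x‖ = 1 → lineSq w x < 1 := by
    intro x hx hx1
    have h1 := lineSq_le hw x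
    rw [hx1, one_pow] at h1
    refine lt_of_le_of_ne h1 fun h2 => ?_
    have h3 := eq_proj hw (x := x) (by rw [h2, hx1, one_pow])
    have h4 := hmiss ⟪w, x⟫ ⟪J w, x⟫ h2
    apply h4
    show proj w x ∈ C
    rwa [← h3]
  have hS : IsCompact (C ∩ Metric.sphere 0 1) := hC.inter_right Metric.isClosed_sphere
  rcases (C ∩ Metric.sphere (0 : Sym m) 1).eq_empty_or_nonempty with h | h
  · refine ⟨1 / 2, by norm_num, by norm_num, fun x hx hx1 => ?_⟩
    exact absurd (show x ∈ C ∩ Metric.sphere 0 1 from ⟨hx, by simpa using hx1⟩) (by rw [h]; simp)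
  · obtain ⟨z, hz, hmax⟩ := hS.exists_isMaxOn h (contDiff_lineSq w).continuous.continuousOn
    have hz1 := hlt z hz.1 (by simpa using hz.2)
    have hz0 : 0 ≤ lineSq w z := by unfold lineSq; positivity
    refine ⟨(1 + lineSq w z) / 2, by linarith, by linarith, fun x hx hx1 => ?_⟩
    have h2 : lineSq w x ≤ lineSq w z := hmax ⟨hx, by simpa using hx1⟩
    linarith

end Pool.Agent.H30OB
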