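import Pool.Graph.R_seed8.H703R3.MBDefs

/-!
# Uniformly convex bodies and small perturbations of the unit ball, in any Euclidean space

(This is the part of the library module `T6.H45.Inner2`/`Inner3` that does not use coordinates,
stated for an arbitrary Euclidean space.)
-/

set_option autoImplicit false

open Set Filter Topology
open scoped RealInnerProductSpace ContDiff

namespace Pool.Agent.H30OB

open Pool.Agent.H703R3.MB

section General

variable {V : Type} [NormedAddCommGroup V] [InnerProductSpace ℝ V] [CompleteSpace V]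
  {f : V → ℝ} {g : V → V}

/-- `f` is smooth and uniformly convex with gradient `g` -/
structure Nice (f : V → ℝ) (g : V → V) : Prop where
  cd : ContDiff ℝ ∞ f
  grad : ∀ x, HasGradientAt f (g x) x
  ge : ∀ x y, f x + ⟪g x, y - x⟫ + ‖y - x‖ ^ 2 / 2 ≤ f y
  le : ∀ x y, f y ≤ f x + ⟪g x, y - x⟫ + 2 * ‖y - x‖ ^ 2
  zero : f 0 < 1
  bdd : ∀ x, ‖x‖ ^ 2 - 1 ≤ f x

/-- the body `f ≤ 1` -/
def Bd (f : V → ℝ) : Set (V) := {x | f x ≤ 1}

namespace Nice

theorem continuous (h : Nice f g) : Continuous f := h.cd.continuous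

theorem pos (h : Nice f g) {x : V} (hx : f x = 1) : 0 < ⟪g x, x⟫ := by
  have h1 := h.ge x 0
  rw [zero_sub, inner_neg_right, norm_neg, hx] at h1
  have h2 := h.zero
  nlinarith [sq_nonneg ‖x‖]

theorem exists_lt (h : Nice f g) {x w : V} (hw : ⟪g x, w⟫ < 0) :
    ∃ s : ℝ, 0 < s ∧ f (x + s • w) < f x := by
  have hw0 : w ≠ 0 := by
    rintro rfl
    simp at hw
  have hw1 : 0 < ‖w‖ := norm_pos_iff.2 hw0
  have hw2 : 0 < ‖w‖ ^ 2 := by positivity
  set a := -⟪g x, w⟫ with ha
  have ha0 : 0 < a := by linarith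
  refine ⟨a / (4 * ‖w‖ ^ 2), by positivity, ?_⟩
  have h1 := h.le x (x + (a / (4 * ‖w‖ ^ 2)) • w)
  rw [add_sub_cancel_left, real_inner_smul_right, norm_smul, mul_pow, Real.norm_eq_abs, sq_abs] at h1
  have h2 : a / (4 * ‖w‖ ^ 2) * ⟪g x, w⟫ + 2 * ((a / (4 * ‖w‖ ^ 2)) ^ 2 * ‖w‖ ^ 2) =
      -(a ^ 2 / (8 * ‖w‖ ^ 2)) := by
    rw [show ⟪g x, w⟫ = -a by rw [ha]; ring]
    field_simp
    ring
  have h3 : 0 < a ^ 2 / (8 * ‖w‖ ^ 2) := by positivity
  linarith

theorem strict (h : Nice f g) {x y : V} (hxy : x ≠ y) {a b : ℝ} (ha : 0 < a) (hb : 0 < b)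
    (hab : a + b = 1) (hx : f x ≤ 1) (hy : f y ≤ 1) : f (a • x + b • y) < 1 := by
  set z := a • x + b • y with hz
  have h1 := h.ge z x
  have h2 := h.ge z y
  have e1 : x - z = b • (x - y) := by
    rw [hz]
    have : x - (a • x + b • y) = (1 - a) • x - b • y := by
      rw [sub_smul, one_smul]
      abel
    rw [this, show 1 - a = b by linarith, smul_sub]
  have e2 : y - z = (-a) • (x - y) := by
    rw [hz]
    have : y - (a • x + b • y) = (1 - b) • y - a • x := by
      rw [sub_smul, one_smul]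
      abel
    rw [this, show 1 - b = a by linarith, neg_smul, smul_sub]
    abel
  have h3 : 0 < ‖x - z‖ ^ 2 := by
    rw [e1, norm_smul]
    have : 0 < ‖x - y‖ := norm_pos_iff.2 (sub_ne_zero.2 hxy)
    have hb' : 0 < ‖b‖ := norm_pos_iff.2 hb.ne'
    positivity
  have h4 : a * ⟪g z, x - z⟫ + b * ⟪g z, y - z⟫ = 0 := by
    rw [e1, e2, real_inner_smul_right, real_inner_smul_right]
    ring
  have h5 : 0 ≤ ‖y - z‖ ^ 2 := by positivity
  have h6 : a * (f z + ⟪g z, x - z⟫ + ‖x - z‖ ^ 2 / 2) +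
      b * (f z + ⟪g z, y - z⟫ + ‖y - z‖ ^ 2 / 2) ≤ a * 1 + b * 1 :=
    add_le_add (mul_le_mul_of_nonneg_left (h1.trans hx) ha.le)
      (mul_le_mul_of_nonneg_left (h2.trans hy) hb.le)
  have h7 : f z + a * (‖x - z‖ ^ 2 / 2) + b * (‖y - z‖ ^ 2 / 2) ≤ 1 := by
    have : a * (f z + ⟪g z, x - z⟫ + ‖x - z‖ ^ 2 / 2) +
      b * (f z + ⟪g z, y - z⟫ + ‖y - z‖ ^ 2 / 2) = (a + b) * f z +
      (a * ⟪g z, x - z⟫ + b * ⟪g z, y - z⟫) + a * (‖x - z‖ ^ 2 / 2) +
        b * (‖y - z‖ ^ 2 / 2) := by ring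
    rw [this, hab, h4] at h6
    linarith
  have h8 : 0 < a * (‖x - z‖ ^ 2 / 2) := mul_pos ha (by linarith)
  have h9 : 0 ≤ b * (‖y - z‖ ^ 2 / 2) := mul_nonneg hb.le (by linarith)
  linarith

theorem isClosed_body (h : Nice f g) : IsClosed (Bd f) :=
  isClosed_le h.continuous continuous_const

theorem norm_le_of_mem (h : Nice f g) {x : V} (hx : x ∈ Bd f) : ‖x‖ ≤ 2 := by
  have h1 : f x ≤ 1 := hx
  have := h.bdd x
  nlinarith [norm_nonneg x]

theorem interior_body (h : Nice f g) : interior (Bd f) = {x | f x < 1} := by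
  apply Subset.antisymm
  · intro x hx
    have h1' : x ∈ Bd f := interior_subset hx
    have h1 : f x ≤ 1 := h1'
    refine lt_of_le_of_ne h1 fun h2 => ?_
    have hc : Tendsto (fun s : ℝ => x + s • x) (𝓝 0) (𝓝 x) := by
      have : Continuous fun s : ℝ => x + s • x := by fun_prop
      simpa using this.tendsto 0
    have h3 : ∀ᶠ s : ℝ in 𝓝 0, x + s • x ∈ Bd f :=
      hc.eventually (mem_interior_iff_mem_nhds.1 hx)
    obtain ⟨δ, hδ, hs⟩ := Metric.eventually_nhds_iff.1 h3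
    have h4 := hs (y := δ / 2) (by rw [Real.dist_eq, sub_zero, abs_of_pos (by linarith)]; linarith)
    have h5 : f (x + (δ / 2) • x) ≤ 1 := h4
    have h6 := h.ge x (x + (δ / 2) • x)
    rw [add_sub_cancel_left, real_inner_smul_right] at h6
    have h7 := h.pos h2
    have h8 : 0 < δ / 2 * ⟪g x, x⟫ := by positivity
    have h9 : 0 ≤ ‖(δ / 2) • x‖ ^ 2 := by positivity
    linarith
  · refine interior_maximal (fun x hx => ?_) (isOpen_lt h.continuous continuous_const)
    have hx' : f x < 1 := hx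
    exact hx'.le

theorem frontier_body (h : Nice f g) : frontier (Bd f) = {x | f x = 1} := by
  rw [h.isClosed_body.frontier_eq, h.interior_body]
  ext x
  simp only [Set.mem_sdiff, mem_ofPred_eq, not_lt, Bd]
  exact ⟨fun h => le_antisymm h.1 h.2, fun h => ⟨h.le, h.ge⟩⟩

theorem g_ne_zero (h : Nice f g) {x : V} (hx : f x = 1) : g x ≠ 0 := by
  intro h0
  have := h.pos hx
  rw [h0, inner_zero_left] at this
  exact lt_irrefl _ this

theorem gradient_sub (h : Nice f g) (x : V) : gradient (fun y => f y - 1) x = g x := by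
  have h1 := h.grad x
  rw [hasGradientAt_iff_hasFDerivAt] at h1
  have : HasGradientAt (fun y => f y - 1) (g x) x := by
    rw [hasGradientAt_iff_hasFDerivAt]
    exact h1.sub_const 1
  exact this.gradient

theorem hasDerivAt_line (h : Nice f g) (x v : V) (s : ℝ) :
    HasDerivAt (fun s : ℝ => f (x + s • v) - 1) ⟪g (x + s • v), v⟫ s := by
  have h1 := h.grad (x + s • v)
  rw [hasGradientAt_iff_hasFDerivAt] at h1
  have hl : HasDerivAt (fun s : ℝ => x + s • v) v s := by
    simpa using ((hasDerivAt_id s).smul_const v).const_add x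
  have hc : HasDerivAt (fun s : ℝ => f (x + s • v))
      ((InnerProductSpace.toDual ℝ (V)) (g (x + s • v)) v) s :=
    HasFDerivAt.comp_hasDerivAt (x := s) (f := fun s : ℝ => x + s • v)
      (l := f) (by simpa using h1) hl
  rw [InnerProductSpace.toDual_apply_apply] at hc
  exact hc.sub_const 1

theorem second_deriv (h : Nice f g) (x v : V) (hv : v ≠ 0) :
    0 < deriv (deriv fun s : ℝ => f (x + s • v) - 1) 0 := by
  have e : (deriv fun s : ℝ => f (x + s • v) - 1) = fun s => ⟪g (x + s • v), v⟫ := by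
    ext s
    exact (h.hasDerivAt_line x v s).deriv
  have hcd : ContDiff ℝ ∞ fun s : ℝ => f (x + s • v) - 1 := by
    have h1 := h.cd
    fun_prop
  have hcd2 : ContDiff ℝ ∞ (deriv fun s : ℝ => f (x + s • v) - 1) := by
    simpa using hcd.iterate_deriv 1
  have hd : HasDerivAt (deriv fun s : ℝ => f (x + s • v) - 1)
      (deriv (deriv fun s : ℝ => f (x + s • v) - 1) 0) 0 :=
    (hcd2.differentiable (by simp)).differentiableAt.hasDerivAt
  have hv0 : 0 < ‖v‖ := norm_pos_iff.2 hv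
  have hv1 : 0 < ‖v‖ ^ 2 := by positivity
  have h3 : ‖v‖ ^ 2 ≤ deriv (deriv fun s : ℝ => f (x + s • v) - 1) 0 := by
    rw [hasDerivAt_iff_tendsto_slope] at hd
    refine ge_of_tendsto hd ?_
    rw [eventually_nhdsWithin_iff]
    refine Eventually.of_forall fun s hs => ?_
    have hs0 : s ≠ 0 := hs
    rw [e, slope_def_field, sub_zero]
    have h1 := h.ge x (x + s • v)
    have h2 := h.ge (x + s • v) x
    rw [add_sub_cancel_left, real_inner_smul_right, norm_smul, mul_pow, Real.norm_eq_abs,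
      sq_abs] at h1
    rw [show x - (x + s • v) = (-s) • v by module, real_inner_smul_right, norm_smul, mul_pow,
      Real.norm_eq_abs, sq_abs, neg_sq] at h2
    rw [zero_smul, add_zero]
    have h4 : s ^ 2 * ‖v‖ ^ 2 ≤ s * (⟪g (x + s • v), v⟫ - ⟪g x, v⟫) := by nlinarith
    rw [show (⟪g (x + s • v), v⟫ - ⟪g x, v⟫) / s =
      s * (⟪g (x + s • v), v⟫ - ⟪g x, v⟫) / s ^ 2 by field_simp, le_div_iff₀ (by positivity)]
    linarith
  linarith

theorem isTable [FiniteDimensional ℝ V] (h : Nice f g) : IsTable (Bd f) where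
  isCompact := Metric.isCompact_of_isClosed_isBounded h.isClosed_body
    ((Metric.isBounded_closedBall (x := (0 : V)) (r := 2)).subset fun x hx => by
      rw [mem_closedBall_zero_iff]
      exact h.norm_le_of_mem hx)
  nonempty := ⟨0, by
    rw [h.interior_body]
    exact h.zero⟩
  strictConvex := by
    intro x hx y hy hxy a b ha hb hab
    rw [h.interior_body]
    exact h.strict hxy ha hb hab hx hy
  smooth := by
    intro x hx
    rw [h.frontier_body] at hx
    refine ⟨fun y => f y - 1, h.cd.sub contDiff_const, ?_, ?_, ?_⟩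
    · rw [h.gradient_sub]
      exact h.g_ne_zero hx
    · exact Eventually.of_forall fun y => by simp [Bd]
    · intro v hv _
      exact h.second_deriv x v hv

theorem isOuterNormal_iff (h : Nice f g) {x ν : V} (hx : f x = 1) :
    IsOuterNormal (Bd f) x ν ↔ ν = ‖g x‖⁻¹ • g x := by
  have h0 : 0 < ‖g x‖ := norm_pos_iff.2 (h.g_ne_zero hx)
  have hn1 : ‖‖g x‖⁻¹ • g x‖ = 1 := by
    rw [norm_smul, norm_inv, norm_norm, inv_mul_cancel₀ h0.ne']
  constructor
  · rintro ⟨h1, h2⟩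
    by_contra hne
    set e := ‖g x‖⁻¹ • g x with he
    have hlt : ⟪e, ν⟫ < 1 := by
      have h3 := real_inner_le_norm e ν
      rw [hn1, h1, one_mul] at h3
      exact lt_of_le_of_ne h3 fun h4 => hne ((inner_eq_one_iff_of_norm_eq_one hn1 h1).1 h4).symm
    have h5 : ⟪g x, ν - e⟫ < 0 := by
      have h6 : ⟪e, ν - e⟫ < 0 := by
        rw [inner_sub_right, real_inner_self_eq_norm_sq, hn1]
        linarith
      have h7 : g x = ‖g x‖ • e := by
        rw [he, smul_smul, mul_inv_cancel₀ h0.ne', one_smul]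
      rw [h7, real_inner_smul_left]
      exact mul_neg_of_pos_of_neg h0 h6
    obtain ⟨s, hs0, hs⟩ := h.exists_lt h5
    have h8 := h2 (x + s • (ν - e)) (by
      show f _ ≤ 1
      rw [← hx]
      exact hs.le)
    rw [add_sub_cancel_left, real_inner_smul_right, inner_sub_right, real_inner_self_eq_norm_sq,
      h1, real_inner_comm] at h8
    have : 0 < s * (1 ^ 2 - ⟪e, ν⟫) := by
      apply mul_pos hs0
      linarith
    linarith
  · rintro rfl
    refine ⟨hn1, fun y hy => ?_⟩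
    have h3 := h.ge x y
    have h4 : f y ≤ 1 := hy
    rw [real_inner_smul_left]
    have h5 : ⟪g x, y - x⟫ ≤ 0 := by
      have : 0 ≤ ‖y - x‖ ^ 2 := by positivity
      linarith
    exact mul_nonpos_of_nonneg_of_nonpos (by positivity) h5

theorem outerNormal_eq (h : Nice f g) {x : V} (hx : f x = 1) :
    outerNormal (Bd f) x = ‖g x‖⁻¹ • g x := by
  have h1 : IsOuterNormal (Bd f) x (outerNormal (Bd f) x) :=
    Classical.epsilon_spec ⟨_, (h.isOuterNormal_iff hx).2 rfl⟩
  exact (h.isOuterNormal_iff hx).1 h1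

end Nice

end General

section Perturb

variable {V : Type} [NormedAddCommGroup V] [InnerProductSpace ℝ V] [CompleteSpace V]

theorem taylor1 {φ : V → ℝ} (h1 : ContDiff ℝ ∞ φ) (h2 : HasCompactSupport φ) :
    ∃ L : ℝ, 0 ≤ L ∧ ∀ x y : V,
      |φ y - φ x - ⟪gradient φ x, y - x⟫| ≤ L * ‖y - x‖ ^ 2 := by
  have hc : HasCompactSupport (fderiv ℝ φ) := h2.fderiv ℝ
  have hd : ContDiff ℝ ∞ (fderiv ℝ φ) := h1.fderiv_right (by simp)
  obtain ⟨L, hL⟩ := hd.lipschitzWith_of_hasCompactSupport hc (by simp)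
  refine ⟨L, L.2, fun x y => ?_⟩
  have hdiff : Differentiable ℝ φ := h1.differentiable (by simp)
  have h3 := (convex_closedBall x ‖y - x‖).norm_image_sub_le_of_norm_hasFDerivWithin_le'
    (f := φ) (f' := fderiv ℝ φ) (φ := fderiv ℝ φ x) (C := L * ‖y - x‖) (x := x) (y := y)
    (fun z _ => hdiff.differentiableAt.hasFDerivAt.hasFDerivWithinAt)
    (fun z hz => by
      have h4 := hL.dist_le_mul z x
      rw [dist_eq_norm, dist_eq_norm] at h4
      refine h4.trans (mul_le_mul_of_nonneg_left ?_ L.2)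
      rw [← dist_eq_norm]
      exact hz)
    (Metric.mem_closedBall_self (norm_nonneg _)) (by
      rw [Metric.mem_closedBall, dist_eq_norm])
  have h5 : fderiv ℝ φ x (y - x) = ⟪gradient φ x, y - x⟫ := by
    have h6 := (hdiff.differentiableAt (x := x)).hasGradientAt
    rw [hasGradientAt_iff_hasFDerivAt] at h6
    rw [h6.fderiv, InnerProductSpace.toDual_apply_apply]
  rw [h5, Real.norm_eq_abs] at h3
  calc _ ≤ L * ‖y - x‖ * ‖y - x‖ := h3
    _ = L * ‖y - x‖ ^ 2 := by ring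

theorem bound1 {φ : V → ℝ} (h1 : ContDiff ℝ ∞ φ) (h2 : HasCompactSupport φ) :
    ∃ B : ℝ, 0 ≤ B ∧ ∀ x, |φ x| ≤ B := by
  obtain ⟨B, hB⟩ := h1.continuous.bounded_above_of_compact_support h2
  exact ⟨B, (norm_nonneg _).trans (hB 0), fun x => by simpa using hB x⟩

/-- the perturbed function -/
noncomputable def pf (φ : V → ℝ) (ε : ℝ) (x : V) : ℝ := ‖x‖ ^ 2 + ε * φ x

/-- its gradient -/
noncomputable def pg (φ : V → ℝ) (ε : ℝ) (x : V) : V :=
  (2 : ℝ) • x + ε • gradient φ x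

theorem nice_pf {φ : V → ℝ} (h1 : ContDiff ℝ ∞ φ) (h2 : HasCompactSupport φ) :
    ∃ ε₀ : ℝ, 0 < ε₀ ∧ ∀ ε : ℝ, |ε| ≤ ε₀ → Nice (pf φ ε) (pg φ ε) := by
  obtain ⟨L, hL0, hL⟩ := taylor1 h1 h2
  obtain ⟨B, hB0, hB⟩ := bound1 h1 h2
  have hpos : 0 < 2 * (L + B + 1) := by positivity
  refine ⟨1 / (2 * (L + B + 1)), by positivity, fun ε hε => ?_⟩
  have hε1 : |ε| * (2 * (L + B + 1)) ≤ 1 := by
    rw [le_div_iff₀ hpos] at hε
    exact hε
  have hεL : |ε| * L ≤ 1 / 2 := by nlinarith [abs_nonneg ε, mul_nonneg (abs_nonneg ε) hB0]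
  have hεB : |ε| * B ≤ 1 / 2 := by nlinarith [abs_nonneg ε, mul_nonneg (abs_nonneg ε) hL0]
  have hφ : ∀ x, |ε * φ x| ≤ 1 / 2 := fun x => by
    rw [abs_mul]
    exact (mul_le_mul_of_nonneg_left (hB x) (abs_nonneg ε)).trans hεB
  have hdiff : Differentiable ℝ φ := h1.differentiable (by simp)
  have hkey : ∀ x y : V, pf φ ε y - (pf φ ε x + ⟪pg φ ε x, y - x⟫) =
      ‖y - x‖ ^ 2 + ε * (φ y - φ x - ⟪gradient φ x, y - x⟫) := by
    intro x y
    unfold pf pg
    have e : ‖y‖ ^ 2 = ‖x‖ ^ 2 + 2 * ⟪x, y - x⟫ + ‖y - x‖ ^ 2 := by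
      rw [← norm_add_sq_real, add_sub_cancel]
    rw [inner_add_left, real_inner_smul_left, real_inner_smul_left, e]
    ring
  have hkey2 : ∀ x y : V, |ε * (φ y - φ x - ⟪gradient φ x, y - x⟫)| ≤ ‖y - x‖ ^ 2 / 2 := by
    intro x y
    rw [abs_mul]
    have h3 := mul_le_mul_of_nonneg_left (hL x y) (abs_nonneg ε)
    have h4 : |ε| * L * ‖y - x‖ ^ 2 ≤ 1 / 2 * ‖y - x‖ ^ 2 :=
      mul_le_mul_of_nonneg_right hεL (sq_nonneg _)
    linarith
  constructor
  · unfold pf
    have h3 : ContDiff ℝ ∞ fun x : V => ‖x‖ ^ 2 := contDiff_norm_sq ℝ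
    exact h3.add (contDiff_const.mul h1)
  · intro x
    rw [hasGradientAt_iff_hasFDerivAt]
    have h3 : HasFDerivAt (fun x : V => ‖x‖ ^ 2) (2 • (innerSL ℝ x)) x :=
      (hasStrictFDerivAt_norm_sq x).hasFDerivAt
    have h4 := (hdiff.differentiableAt (x := x)).hasGradientAt
    rw [hasGradientAt_iff_hasFDerivAt] at h4
    have h5 := h3.add (h4.const_mul ε)
    refine h5.congr_fderiv ?_
    ext w
    unfold pg
    simp [InnerProductSpace.toDual_apply_apply, inner_add_left, real_inner_smul_left]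
  · intro x y
    have h3 := hkey x y
    have h4 := (abs_le.1 (hkey2 x y)).1
    linarith
  · intro x y
    have h3 := hkey x y
    have h4 := (abs_le.1 (hkey2 x y)).2
    have h5 := sq_nonneg ‖y - x‖
    linarith
  · unfold pf
    have h3 := (abs_le.1 (hφ 0)).2
    rw [norm_zero]
    linarith
  · intro x
    unfold pf
    have h3 := (abs_le.1 (hφ x)).1
    linarith

theorem pf_far {φ : V → ℝ} (ε : ℝ) {x : V}
    (hx : x ∉ tsupport φ) : pf φ ε x = ‖x‖ ^ 2 ∧ pg φ ε x = (2 : ℝ) • x := by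
  have h2 : φ x = 0 := image_eq_zero_of_notMem_tsupport hx
  have h3 : gradient φ x = 0 := by
    unfold gradient
    have h4 : φ =ᶠ[𝓝 x] fun _ => 0 := notMem_tsupport_iff_eventuallyEq.1 hx
    rw [h4.fderiv_eq]
    simp
  unfold pf pg
  rw [h2, h3]
  simp


end Perturb

end Pool.Agent.H30OB
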