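import Pool.Agent.H30OB.Tang

/-!
# Outer billiards: the map is a well-defined bijection of the exterior, for every table; complex
cones are invariant hypersurfaces of all tables which coincide with the unit ball near them
-/

set_option autoImplicit false
set_option linter.unusedSectionVars false

open Set Filter Topology
open scoped RealInnerProductSpace ContDiff

namespace Pool.Agent.H30OB

open Pool.Agent.H703R3.MB

section Normal

variable {V : Type} [NormedAddCommGroup V] [InnerProductSpace ℝ V] [CompleteSpace V]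

/-- every boundary point of a table has an outer normal -/
theorem exists_normal {K : Set V} (hK : IsTable K) {x : V} (hx : x ∈ frontier K) :
    ∃ ν, IsOuterNormal K x ν := by
  obtain ⟨F, hF, hG, hloc, _⟩ := hK.smooth x hx
  have hxK : x ∈ K := hK.isCompact.isClosed.frontier_subset hx
  have hF0 : F x ≤ 0 := (hloc.self_of_nhds).1 hxK
  have hFx : F x = 0 := by
    refine le_antisymm hF0 ?_
    by_contra hneg
    rw [not_le] at hneg
    have h1 : ∀ᶠ y in 𝓝 x, F y < 0 := (hF.continuous.tendsto x).eventually (gt_mem_nhds hneg)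
    have h2 : ∀ᶠ y in 𝓝 x, y ∈ K := by
      filter_upwards [h1, hloc] with y hy1 hy2
      exact hy2.2 hy1.le
    exact hx.2 (mem_interior_iff_mem_nhds.2 h2)
  have hG0 : 0 < ‖gradient F x‖ := norm_pos_iff.2 hG
  refine ⟨‖gradient F x‖⁻¹ • gradient F x, ?_, fun z hz => ?_⟩
  · rw [norm_smul, norm_inv, norm_norm, inv_mul_cancel₀ hG0.ne']
  · rw [real_inner_smul_left]
    refine mul_nonpos_of_nonneg_of_nonpos (by positivity) ?_
    by_contra hpos
    rw [not_le] at hpos
    have hd : DifferentiableAt ℝ F x := (hF.differentiable (by simp)).differentiableAt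
    have h1 := hd.hasGradientAt
    rw [hasGradientAt_iff_hasFDerivAt] at h1
    have hl : HasDerivAt (fun s : ℝ => x + s • (z - x)) (z - x) 0 := by
      simpa using ((hasDerivAt_id (0 : ℝ)).smul_const (z - x)).const_add x
    have hc : HasDerivAt (fun s : ℝ => F (x + s • (z - x))) ⟪gradient F x, z - x⟫ 0 := by
      have h2 : HasDerivAt (fun s : ℝ => F (x + s • (z - x)))
          ((InnerProductSpace.toDual ℝ V) (gradient F x) (z - x)) 0 :=
        HasFDerivAt.comp_hasDerivAt (x := (0 : ℝ)) (f := fun s : ℝ => x + s • (z - x))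
          (l := F) (by simpa using h1) hl
      rwa [InnerProductSpace.toDual_apply_apply] at h2
    rw [hasDerivAt_iff_tendsto_slope] at hc
    have h3 : ∀ᶠ s in 𝓝[≠] (0 : ℝ), 0 < slope (fun s : ℝ => F (x + s • (z - x))) 0 s :=
      hc.eventually (lt_mem_nhds hpos)
    have hcont : Tendsto (fun s : ℝ => x + s • (z - x)) (𝓝 0) (𝓝 x) := by
      have : Continuous fun s : ℝ => x + s • (z - x) := by fun_prop
      simpa using this.tendsto 0
    have h4 : ∀ᶠ s in 𝓝[≠] (0 : ℝ), (x + s • (z - x) ∈ K ↔ F (x + s • (z - x)) ≤ 0) :=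
      (hcont.eventually hloc).filter_mono nhdsWithin_le_nhds
    have h5 : ∀ᶠ s in 𝓝[>] (0 : ℝ), (0 < slope (fun s : ℝ => F (x + s • (z - x))) 0 s ∧
        (x + s • (z - x) ∈ K ↔ F (x + s • (z - x)) ≤ 0)) ∧ s < 1 := by
      refine ((h3.and h4).filter_mono (nhdsWithin_mono _ ?_)).and ?_
      · intro s hs
        exact (ne_of_gt hs)
      · exact (gt_mem_nhds zero_lt_one).filter_mono nhdsWithin_le_nhds
    obtain ⟨s, ⟨⟨h6, h7⟩, h8⟩, hs⟩ := (h5.and self_mem_nhdsWithin).exists
    have hs0 : (0 : ℝ) < s := hs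
    rw [slope_def_field, sub_zero, zero_smul, add_zero, lt_div_iff₀ hs0, zero_mul, hFx] at h6
    have hmem : x + s • (z - x) ∈ K := by
      have := hK.strictConvex.convex hxK hz (a := 1 - s) (b := s) (by linarith) hs0.le (by ring)
      have e : x + s • (z - x) = (1 - s) • x + s • z := by module
      rw [e]; exact this
    have := h7.1 hmem
    linarith

theorem outerNormal_spec {K : Set V} (hK : IsTable K) {x : V} (hx : x ∈ frontier K) :
    IsOuterNormal K x (outerNormal K x) :=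
  Classical.epsilon_spec (p := IsOuterNormal K x) (exists_normal hK hx)

/-- a table which coincides with the unit ball near the unit vector `y` has the normal `y` at `y` -/
theorem ball_support {K : Set V} (hK : Convex ℝ K) {y : V} (hy : ‖y‖ = 1)
    (hnear : ∀ᶠ z in 𝓝 y, (z ∈ K ↔ ‖z‖ ≤ 1)) {z : V} (hz : z ∈ K) : ⟪y, z⟫ ≤ ⟪y, y⟫ := by
  have hyK : y ∈ K := hnear.self_of_nhds.2 hy.le
  by_contra hpos
  rw [not_le] at hpos
  have hcont : Tendsto (fun s : ℝ => y + s • (z - y)) (𝓝 0) (𝓝 y) := by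
    have : Continuous fun s : ℝ => y + s • (z - y) := by fun_prop
    simpa using this.tendsto 0
  have h4 : ∀ᶠ s in 𝓝[>] (0 : ℝ), (y + s • (z - y) ∈ K ↔ ‖y + s • (z - y)‖ ≤ 1) ∧ s < 1 :=
    ((hcont.eventually hnear).filter_mono nhdsWithin_le_nhds).and
      ((gt_mem_nhds zero_lt_one).filter_mono nhdsWithin_le_nhds)
  obtain ⟨s, ⟨h6, h7⟩, hs⟩ := (h4.and self_mem_nhdsWithin).exists
  have hs0 : (0 : ℝ) < s := hs
  have hmem : y + s • (z - y) ∈ K := by
    have := hK hyK hz (a := 1 - s) (b := s) (by linarith) hs0.le (by ring)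
    have e : y + s • (z - y) = (1 - s) • y + s • z := by module
    rw [e]; exact this
  have h8 := h6.1 hmem
  have h9 : ‖y + s • (z - y)‖ ^ 2 ≤ 1 := by nlinarith [norm_nonneg (y + s • (z - y))]
  rw [norm_add_sq_real, hy, real_inner_smul_right, inner_sub_right] at h9
  have h10 : 0 < s * (⟪y, z⟫ - ⟪y, y⟫) := mul_pos hs0 (by linarith)
  have h11 : 0 ≤ ‖s • (z - y)‖ ^ 2 := by positivity
  linarith

end Normal

section Out

variable {m : ℕ}

theorem J_add (u v : Sym m) : J (u + v) = J u + J v := by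
  ext i
  rcases i with i | i
  · simp [J]; ring
  · simp [J]

theorem J_J (u : Sym m) : J (J u) = - u := by
  ext i
  rcases i with i | i <;> simp [J]

/-- `J` as a continuous linear map -/
noncomputable def JL (m : ℕ) : Sym m →L[ℝ] Sym m :=
  LinearMap.toContinuousLinearMap
    { toFun := J
      map_add' := J_add
      map_smul' := fun c u => J_smul c u }

@[simp] theorem JL_apply (u : Sym m) : JL m u = J u := rfl

theorem J_sub (u v : Sym m) : J (u - v) = J u - J v := by
  rw [← JL_apply, ← JL_apply, ← JL_apply, map_sub]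

theorem J_neg (u : Sym m) : J (-u) = - J u := by
  rw [← JL_apply, ← JL_apply, map_neg]

theorem inner_J (u : Sym m) : ⟪J u, u⟫ = 0 := by rw [J_inner, J_inner_self, neg_zero]

theorem inner_J_J (u v : Sym m) : ⟪J u, J v⟫ = ⟪u, v⟫ := by
  rw [J_inner, J_J, inner_neg_right, neg_neg]

theorem norm_J (u : Sym m) : ‖J u‖ = ‖u‖ := by
  have h : ‖J u‖ ^ 2 = ‖u‖ ^ 2 := by
    rw [← real_inner_self_eq_norm_sq, ← real_inner_self_eq_norm_sq, inner_J_J]
  exact (sq_eq_sq₀ (norm_nonneg _) (norm_nonneg _)).1 h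

theorem J_eq_zero {u : Sym m} (h : J u = 0) : u = 0 := by
  rw [← norm_eq_zero, ← norm_J, h, norm_zero]

/-- the variational form of the tangency condition -/
def Tang (K : Set (Sym m)) (x y : Sym m) : Prop :=
  y ∈ K ∧ ∀ z ∈ K, ⟪J (x - y), z⟫ ≤ ⟪J (x - y), y⟫

theorem tang_of_isTangencyPoint {K : Set (Sym m)} (hK : IsTable K) {x y : Sym m}
    (h : IsTangencyPoint K x y) : x ∉ K ∧ Tang K x y := by
  obtain ⟨hy, t, ht, hx⟩ := h
  have hyK : y ∈ K := hK.isCompact.isClosed.frontier_subset hy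
  have hn := outerNormal_spec hK hy
  set ν := outerNormal K y with hν
  have hxy : x - y = -(t • J ν) := by rw [hx]; abel
  refine ⟨fun hxK => ?_, hyK, fun z hz => ?_⟩
  · have hne : x ≠ y := by
      intro h0
      rw [h0, sub_self] at hxy
      have h1 : t • J ν = 0 := by rw [eq_comm, neg_eq_zero] at hxy; exact hxy
      have h2 := norm_J ν
      rw [hn.1] at h2
      rcases smul_eq_zero.1 h1 with h3 | h3
      · exact ht.ne' h3
      · rw [h3, norm_zero] at h2; exact zero_ne_one h2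
    have h1 := normal_strict hK hyK hn hxK hne
    rw [hxy, inner_neg_right, real_inner_smul_right, J_inner_self] at h1
    simp at h1
  · have e : J (x - y) = t • ν := by
      rw [hxy, J_neg, J_smul, J_J, smul_neg, neg_neg]
    rw [e, real_inner_smul_left, real_inner_smul_left]
    have := hn.2 z hz
    rw [inner_sub_right] at this
    exact mul_le_mul_of_nonneg_left (by linarith) ht.le

theorem isTangencyPoint_of_tang {K : Set (Sym m)} (hK : IsTable K) {x y : Sym m} (hx : x ∉ K)
    (h : Tang K x y) : IsTangencyPoint K x y := by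
  have ha0 : J (x - y) ≠ 0 := by
    intro h0
    have := J_eq_zero h0
    rw [sub_eq_zero] at this
    rw [this] at hx
    exact hx h.1
  obtain ⟨hf, hn⟩ := normal_of_max ha0 h.1 h.2
  have hpos : 0 < ‖J (x - y)‖ := norm_pos_iff.2 ha0
  refine ⟨hf, ‖J (x - y)‖, hpos, ?_⟩
  rw [outerNormal_eq_of hK hf hn, J_smul, J_J, smul_smul, mul_inv_cancel₀ hpos.ne', one_smul]
  abel

theorem existsUnique_tangency {K : Set (Sym m)} (hK : IsTable K) {x : Sym m} (hx : x ∉ K) :
    ∃! y, IsTangencyPoint K x y := by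
  obtain ⟨y, hy, h⟩ := exists_fixed hK (JL m) (fun u => inner_J u) (fun u => J_eq_zero) hx
  refine ⟨y, isTangencyPoint_of_tang hK hx ⟨hy, h⟩, fun y' hy' => ?_⟩
  have h2 := (tang_of_isTangencyPoint hK hy').2
  exact fixed_unique hK (JL m) (fun u => inner_J u) (fun u => J_eq_zero) hx h2.1 h2.2 hy h

theorem outerBilliard_eq {K : Set (Sym m)} (hK : IsTable K) {x y : Sym m} (hx : x ∉ K)
    (h : Tang K x y) : outerBilliard K x = (2 : ℝ) • y - x := by
  have h1 := isTangencyPoint_of_tang hK hx h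
  have h2 : IsTangencyPoint K x (Classical.epsilon (IsTangencyPoint K x)) :=
    Classical.epsilon_spec ⟨y, h1⟩
  unfold outerBilliard
  rw [(existsUnique_tangency hK hx).unique h2 h1]

theorem image_notMem {K : Set (Sym m)} (hK : IsTable K) {x y : Sym m} (hx : x ∉ K)
    (h : Tang K x y) : (2 : ℝ) • y - x ∉ K := by
  intro hmem
  have h1 := h.2 _ hmem
  have ha0 : J (x - y) ≠ 0 := by
    intro h0
    have := J_eq_zero h0
    rw [sub_eq_zero] at this
    rw [this] at hx
    exact hx h.1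
  obtain ⟨hf, hn⟩ := normal_of_max ha0 h.1 h.2
  have hne : (2 : ℝ) • y - x ≠ y := by
    intro h0
    apply hx
    have : x = y := by
      have h2 : (2 : ℝ) • y - x - y = 0 := by rw [h0, sub_self]
      have h3 : (2 : ℝ) • y - x - y = y - x := by module
      rw [h3, sub_eq_zero] at h2
      exact h2.symm
    rw [this]; exact h.1
  have h2 := normal_strict hK h.1 hn hmem hne
  have e : (2 : ℝ) • y - x - y = -(x - y) := by module
  rw [e, real_inner_smul_left, inner_neg_right, inner_J, neg_zero, mul_zero] at h2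
  exact lt_irrefl _ h2

/-- **The outer billiard map of every table is a bijection of its exterior.** -/
theorem bijOn {K : Set (Sym m)} (hK : IsTable K) : BijOn (outerBilliard K) Kᶜ Kᶜ := by
  have hex : ∀ x ∈ Kᶜ, ∃ y, Tang K x y := by
    intro x hx
    obtain ⟨y, hy, h⟩ := exists_fixed hK (JL m) (fun u => inner_J u) (fun u => J_eq_zero) hx
    exact ⟨y, hy, h⟩
  refine ⟨?_, ?_, ?_⟩
  · intro x hx
    obtain ⟨y, hy⟩ := hex x hx
    rw [outerBilliard_eq hK hx hy]
    exact image_notMem hK hx hy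
  · intro x₁ h₁ x₂ h₂ h
    obtain ⟨y₁, t₁⟩ := hex x₁ h₁
    obtain ⟨y₂, t₂⟩ := hex x₂ h₂
    have hz := image_notMem hK h₁ t₁
    rw [outerBilliard_eq hK h₁ t₁, outerBilliard_eq hK h₂ t₂] at h
    set z := (2 : ℝ) • y₁ - x₁ with hzd
    have e1 : (-JL m) (z - y₁) = J (x₁ - y₁) := by
      rw [ContinuousLinearMap.neg_apply, JL_apply, ← J_neg]
      congr 1
      rw [hzd]; module
    have e2 : (-JL m) (z - y₂) = J (x₂ - y₂) := by
      rw [ContinuousLinearMap.neg_apply, JL_apply, ← J_neg]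
      congr 1
      rw [h]; module
    have huniq : y₁ = y₂ := by
      refine fixed_unique hK (-JL m) (fun u => ?_) (fun u hu => ?_) hz t₁.1 ?_ t₂.1 ?_
      · rw [ContinuousLinearMap.neg_apply, inner_neg_left, JL_apply, inner_J, neg_zero]
      · rw [ContinuousLinearMap.neg_apply, neg_eq_zero] at hu
        exact J_eq_zero hu
      · rw [e1]; exact t₁.2
      · rw [e2]; exact t₂.2
    rw [huniq] at hzd
    have : (2 : ℝ) • y₂ - x₁ = (2 : ℝ) • y₂ - x₂ := by rw [← hzd, h]
    exact sub_right_injective this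
  · intro z hz
    obtain ⟨y, hy, h⟩ := exists_fixed hK (-JL m)
      (fun u => by rw [ContinuousLinearMap.neg_apply, inner_neg_left, JL_apply, inner_J, neg_zero])
      (fun u hu => by
        rw [ContinuousLinearMap.neg_apply, neg_eq_zero] at hu
        exact J_eq_zero hu) hz
    have e1 : (-JL m) (z - y) = J ((2 : ℝ) • y - z - y) := by
      rw [ContinuousLinearMap.neg_apply, JL_apply, ← J_neg]
      congr 1
      module
    rw [e1] at h
    have ht : Tang K ((2 : ℝ) • y - z) y := ⟨hy, h⟩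
    have hx : (2 : ℝ) • y - z ∉ K := by
      -- by symmetry
      intro hmem
      have ha0 : J ((2 : ℝ) • y - z - y) ≠ 0 := by
        intro h0
        have := J_eq_zero h0
        have h3 : (2 : ℝ) • y - z - y = y - z := by module
        rw [h3, sub_eq_zero] at this
        rw [← this] at hz
        exact hz hy
      obtain ⟨hf, hn⟩ := normal_of_max ha0 hy h
      have hne : (2 : ℝ) • y - z ≠ y := by
        intro h0
        rw [h0, sub_self] at ha0
        exact ha0 (by rw [← JL_apply, map_zero])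
      have h2 := normal_strict hK hy hn hmem hne
      rw [real_inner_smul_left, inner_J, mul_zero] at h2
      exact lt_irrefl _ h2
    refine ⟨(2 : ℝ) • y - z, hx, ?_⟩
    rw [outerBilliard_eq hK hx ht]
    module

/-- `Z` is a complex cone: a nonempty smooth hypersurface of `ℝ²ᵐ \ {0}`, closed in `ℝ²ᵐ \ {0}`,
which is invariant under the multiplication with all nonzero complex numbers `a + b √-1`, that is,
under the maps `x ↦ a x + b J x`. In other words, the cone over a closed smooth real hypersurface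
of the complex projective space. -/
structure IsComplexCone (Z : Set (Sym m)) : Prop where
  nonempty : Z.Nonempty
  closed : ∃ C : Set (Sym m), IsClosed C ∧ Z = {0}ᶜ ∩ C
  smooth : ∀ x ∈ Z, ∃ F : Sym m → ℝ, ContDiff ℝ ∞ F ∧ (∀ᶠ y in 𝓝 x, (y ∈ Z ↔ F y = 0)) ∧
    fderiv ℝ F x ≠ 0
  mul : ∀ x ∈ Z, ∀ a b : ℝ, a ^ 2 + b ^ 2 ≠ 0 → a • x + b • J x ∈ Z

theorem IsComplexCone.ne_zero {Z : Set (Sym m)} (hZ : IsComplexCone Z) {x : Sym m} (hx : x ∈ Z) :
    x ≠ 0 := by
  obtain ⟨C, _, hC⟩ := hZ.closed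
  rw [hC] at hx
  exact hx.1

theorem IsComplexCone.smul {Z : Set (Sym m)} (hZ : IsComplexCone Z) {x : Sym m} (hx : x ∈ Z)
    {a : ℝ} (ha : a ≠ 0) : a • x ∈ Z := by
  have := hZ.mul x hx a 0 (by positivity)
  simpa using this

section Cone

variable {Z K : Set (Sym m)} (hZ : IsComplexCone Z) (hK : IsTable K)
  (hnear : ∀ y ∈ Z, ‖y‖ = 1 → ∀ᶠ z in 𝓝 y, (z ∈ K ↔ ‖z‖ ≤ 1))

include hZ hK hnear

theorem unit_mem {x : Sym m} (hx : x ∈ Z) : ‖x‖⁻¹ • x ∈ Z ∧ ‖‖x‖⁻¹ • x‖ = 1 ∧ ‖x‖⁻¹ • x ∈ K := by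
  have h0 : 0 < ‖x‖ := norm_pos_iff.2 (hZ.ne_zero hx)
  have h1 := hZ.smul hx (inv_ne_zero h0.ne')
  have h2 : ‖‖x‖⁻¹ • x‖ = 1 := by rw [norm_smul, norm_inv, norm_norm, inv_mul_cancel₀ h0.ne']
  exact ⟨h1, h2, (hnear _ h1 h2).self_of_nhds.2 h2.le⟩

theorem zero_mem : (0 : Sym m) ∈ K := by
  obtain ⟨x, hx⟩ := hZ.nonempty
  have h1 := unit_mem hZ hK hnear hx
  have h2 := unit_mem hZ hK hnear (hZ.smul hx (a := -1) (by norm_num))
  have h3 := hK.strictConvex.convex h1.2.2 h2.2.2 (a := 1 / 2) (b := 1 / 2) (by norm_num)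
    (by norm_num) (by norm_num)
  have e : (1 / 2 : ℝ) • (‖x‖⁻¹ • x) + (1 / 2 : ℝ) • (‖(-1 : ℝ) • x‖⁻¹ • (-1 : ℝ) • x) = 0 := by
    rw [neg_one_smul, norm_neg]
    module
  rwa [e] at h3

theorem one_lt_norm {x : Sym m} (hx : x ∈ Z) (hxK : x ∉ K) : 1 < ‖x‖ := by
  by_contra hle
  rw [not_lt] at hle
  have h0 : 0 < ‖x‖ := norm_pos_iff.2 (hZ.ne_zero hx)
  have h1 := unit_mem hZ hK hnear hx
  have h2 := zero_mem hZ hK hnear
  have h3 := hK.strictConvex.convex h2 h1.2.2 (a := 1 - ‖x‖) (b := ‖x‖) (by linarith) h0.le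
    (by ring)
  rw [smul_zero, zero_add, smul_smul, mul_inv_cancel₀ h0.ne', one_smul] at h3
  exact hxK h3

/-- the tangency point of a point of the cone; `σ = 1` for the map, `σ = -1` for its inverse -/
theorem tang_point {x : Sym m} (hx : x ∈ Z) (hxK : x ∉ K) (σ : ℝ) (hσ : σ ^ 2 = 1) :
    ∃ (y : Sym m) (t : ℝ), 0 < t ∧ y ∈ Z ∧ x = y - (σ * t) • J y ∧ y ∈ K ∧
      (∀ z ∈ K, ⟪y, z⟫ ≤ ⟪y, y⟫) ∧ (2 : ℝ) • y - x ∈ Z := by
  have h1 := one_lt_norm hZ hK hnear hx hxK
  have h2 : 0 < ‖x‖ ^ 2 - 1 := by nlinarith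
  set t := Real.sqrt (‖x‖ ^ 2 - 1) with ht
  have ht0 : 0 < t := Real.sqrt_pos.2 h2
  have ht2 : t ^ 2 = ‖x‖ ^ 2 - 1 := Real.sq_sqrt h2.le
  have ht1 : 0 < 1 + t ^ 2 := by positivity
  have hs2 : (σ * t) ^ 2 = t ^ 2 := by rw [mul_pow, hσ, one_mul]
  set y : Sym m := (1 / (1 + t ^ 2)) • x + (σ * t / (1 + t ^ 2)) • J x with hy
  have hyZ : y ∈ Z := by
    refine hZ.mul x hx _ _ ?_
    positivity
  have hJy : J y = (1 / (1 + t ^ 2)) • J x - (σ * t / (1 + t ^ 2)) • x := by
    rw [hy, J_add, J_smul, J_smul, J_J, smul_neg, sub_eq_add_neg]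
  have hxy : x = y - (σ * t) • J y := by
    rw [hJy, hy]
    have e : (1 / (1 + t ^ 2)) • x + (σ * t / (1 + t ^ 2)) • J x -
        (σ * t) • ((1 / (1 + t ^ 2)) • J x - (σ * t / (1 + t ^ 2)) • x) =
        (1 / (1 + t ^ 2) + (σ * t) ^ 2 / (1 + t ^ 2)) • x := by
      module
    rw [e, hs2, ← add_div, div_self ht1.ne', one_smul]
  have hn : ‖y‖ ^ 2 = 1 := by
    have h3 : ‖x‖ ^ 2 = (1 + t ^ 2) * ‖y‖ ^ 2 := by
      rw [hxy, ← real_inner_self_eq_norm_sq, inner_sub_left, inner_sub_right, inner_sub_right,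
        real_inner_smul_left, real_inner_smul_left, real_inner_smul_right, real_inner_smul_right,
        inner_J, J_inner_self, inner_J_J, real_inner_self_eq_norm_sq]
      rw [← hs2]; ring
    have h4 : (1 + t ^ 2) * ‖y‖ ^ 2 = (1 + t ^ 2) * 1 := by rw [← h3]; linarith
    exact mul_left_cancel₀ ht1.ne' h4
  have hy1 : ‖y‖ = 1 := by
    have := norm_nonneg y
    nlinarith
  have hnr := hnear y hyZ hy1
  refine ⟨y, t, ht0, hyZ, hxy, hnr.self_of_nhds.2 hy1.le,
    fun z hz => ball_support hK.strictConvex.convex hy1 hnr hz, ?_⟩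
  have e : (2 : ℝ) • y - x = (2 / (1 + t ^ 2) - 1) • x + (2 * (σ * t) / (1 + t ^ 2)) • J x := by
    rw [hy]; module
  rw [e]
  refine hZ.mul x hx _ _ ?_
  have h5 : 0 < (2 * (σ * t) / (1 + t ^ 2)) ^ 2 := by
    rw [div_pow, mul_pow, hs2]
    positivity
  have h6 := sq_nonneg (2 / (1 + t ^ 2) - 1)
  linarith

/-- **Complex cones are invariant hypersurfaces** of every table that coincides with the unit ball
near the unit vectors of the cone. -/
theorem cone_invariant : IsOuterInvariantHypersurface K (Kᶜ ∩ Z) where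
  nonempty := by
    obtain ⟨x, hx⟩ := hZ.nonempty
    obtain ⟨R, hR⟩ := hK.isCompact.isBounded.exists_norm_le
    have h1 := unit_mem hZ hK hnear hx
    refine ⟨(|R| + 1) • (‖x‖⁻¹ • x), fun h => ?_, hZ.smul h1.1 (by positivity)⟩
    have h2 := hR _ h
    rw [norm_smul, h1.2.1, mul_one, Real.norm_eq_abs, abs_of_pos (by positivity)] at h2
    have := le_abs_self R
    linarith
  subset := inter_subset_left
  closed := by
    obtain ⟨C, hC, hZC⟩ := hZ.closed
    refine ⟨C, hC, ?_⟩
    ext x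
    rw [hZC]
    constructor
    · rintro ⟨h1, _, h3⟩
      exact ⟨h1, h3⟩
    · rintro ⟨h1, h2⟩
      refine ⟨h1, ?_, h2⟩
      intro h0
      rw [mem_singleton_iff] at h0
      rw [h0] at h1
      exact h1 (zero_mem hZ hK hnear)
  smooth := by
    rintro x ⟨hxK, hx⟩
    obtain ⟨F, hF, hloc, hd⟩ := hZ.smooth x hx
    refine ⟨F, hF, ?_, hd⟩
    have hopen : ∀ᶠ y in 𝓝 x, y ∈ Kᶜ := hK.isCompact.isClosed.isOpen_compl.mem_nhds hxK
    filter_upwards [hloc, hopen] with y hy1 hy2
    rw [← hy1]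
    exact ⟨fun h => h.2, fun h => ⟨hy2, h⟩⟩
  invariant := by
    ext z
    constructor
    · rintro ⟨x, ⟨hxK, hx⟩, rfl⟩
      obtain ⟨y, t, ht, hyZ, hxy, hyK, hmax, hT⟩ := tang_point hZ hK hnear hx hxK 1 (by norm_num)
      have e : J (x - y) = t • y := by
        have : x - y = -(t • J y) := by
          rw [hxy, one_mul]; abel
        rw [this, J_neg, J_smul, J_J, smul_neg, neg_neg]
      have htang : Tang K x y := by
        refine ⟨hyK, fun z hz => ?_⟩
        rw [e, real_inner_smul_left, real_inner_smul_left]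
        exact mul_le_mul_of_nonneg_left (hmax z hz) ht.le
      rw [outerBilliard_eq hK hxK htang]
      exact ⟨image_notMem hK hxK htang, hT⟩
    · rintro ⟨hzK, hz⟩
      obtain ⟨y, t, ht, hyZ, hzy, hyK, hmax, hT⟩ := tang_point hZ hK hnear hz hzK (-1)
        (by norm_num)
      set x := (2 : ℝ) • y - z with hxd
      have e : J (x - y) = t • y := by
        have : x - y = -(t • J y) := by
          rw [hxd, hzy]; module
        rw [this, J_neg, J_smul, J_J, smul_neg, neg_neg]
      have htang : Tang K x y := by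
        refine ⟨hyK, fun z hz => ?_⟩
        rw [e, real_inner_smul_left, real_inner_smul_left]
        exact mul_le_mul_of_nonneg_left (hmax z hz) ht.le
      have hy0 : y ≠ 0 := hZ.ne_zero hyZ
      have ha0 : J (x - y) ≠ 0 := by
        rw [e]
        exact smul_ne_zero ht.ne' hy0
      have hxK : x ∉ K := by
        intro hmem
        obtain ⟨hf, hn⟩ := normal_of_max ha0 htang.1 htang.2
        have hne : x ≠ y := by
          intro h0
          rw [h0, sub_self] at ha0
          exact ha0 (by rw [← JL_apply, map_zero])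
        have h2 := normal_strict hK hyK hn hmem hne
        rw [real_inner_smul_left, inner_J, mul_zero] at h2
        exact lt_irrefl _ h2
      refine ⟨x, ⟨hxK, hT⟩, ?_⟩
      rw [outerBilliard_eq hK hxK htang, hxd]
      module

end Cone

end Out

end Pool.Agent.H30OB
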