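import Pool.Graph.R_seed8.H703R3.MBOuter
import Pool.Agent.H30OB.Nice

/-!
# The tangency points of an outer billiard: existence and uniqueness for every table

For a skew-symmetric injective linear map `A` and a compact, strictly convex body `K` every point
`x` outside `K` has a unique `y ∈ K` which maximizes `⟪A (x - y), z⟫` over `z ∈ K`. It is the
minimum of the convex function `y ↦ max_z ⟪A (x - y), z⟫ - ⟪A x, y⟫` on `K`.
-/

set_option autoImplicit false

open Set Filter Topology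
open scoped RealInnerProductSpace ContDiff

namespace Pool.Agent.H30OB

open Pool.Agent.H703R3.MB

section General

variable {V : Type} [NormedAddCommGroup V] [InnerProductSpace ℝ V] [CompleteSpace V]

/-- moving a little in a direction in which the function decreases -/
lemma exists_small {F : V → ℝ} {K : Set V} {x w : V} (hF : DifferentiableAt ℝ F x)
    (hK : ∀ᶠ y in 𝓝 x, (y ∈ K ↔ F y ≤ 0)) (hx : F x ≤ 0) (hw : ⟪gradient F x, w⟫ < 0) :
    ∃ s : ℝ, 0 < s ∧ x + s • w ∈ K := by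
  have h1 := hF.hasGradientAt
  rw [hasGradientAt_iff_hasFDerivAt] at h1
  have hl : HasDerivAt (fun s : ℝ => x + s • w) w 0 := by
    simpa using ((hasDerivAt_id (0 : ℝ)).smul_const w).const_add x
  have hc : HasDerivAt (fun s : ℝ => F (x + s • w)) ⟪gradient F x, w⟫ 0 := by
    have h2 : HasDerivAt (fun s : ℝ => F (x + s • w))
        ((InnerProductSpace.toDual ℝ V) (gradient F x) w) 0 :=
      HasFDerivAt.comp_hasDerivAt (x := (0 : ℝ)) (f := fun s : ℝ => x + s • w)
        (l := F) (by simpa using h1) hl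
    rwa [InnerProductSpace.toDual_apply_apply] at h2
  rw [hasDerivAt_iff_tendsto_slope] at hc
  have h3 : ∀ᶠ s in 𝓝[≠] (0 : ℝ), slope (fun s : ℝ => F (x + s • w)) 0 s < 0 :=
    hc.eventually (gt_mem_nhds hw)
  have hcont : Tendsto (fun s : ℝ => x + s • w) (𝓝 0) (𝓝 x) := by
    have : Continuous fun s : ℝ => x + s • w := by fun_prop
    simpa using this.tendsto 0
  have h4 : ∀ᶠ s in 𝓝[≠] (0 : ℝ), (x + s • w ∈ K ↔ F (x + s • w) ≤ 0) :=
    (hcont.eventually hK).filter_mono nhdsWithin_le_nhds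
  have h5 : ∀ᶠ s in 𝓝[>] (0 : ℝ), slope (fun s : ℝ => F (x + s • w)) 0 s < 0 ∧
      (x + s • w ∈ K ↔ F (x + s • w) ≤ 0) := by
    refine (h3.and h4).filter_mono (nhdsWithin_mono _ ?_)
    intro s hs
    exact (ne_of_gt hs)
  obtain ⟨s, ⟨h6, h7⟩, hs⟩ := (h5.and self_mem_nhdsWithin).exists
  have hs0 : (0 : ℝ) < s := hs
  refine ⟨s, hs0, h7.2 ?_⟩
  rw [slope_def_field, sub_zero, zero_smul, add_zero, div_lt_iff₀ hs0, zero_mul] at h6
  linarith

/-- the outer unit normal of a table is unique -/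
theorem normal_unique {K : Set V} (hK : IsTable K) {x ν ν' : V} (hx : x ∈ frontier K)
    (h : IsOuterNormal K x ν) (h' : IsOuterNormal K x ν') : ν = ν' := by
  obtain ⟨F, hF, hG, hloc, _⟩ := hK.smooth x hx
  have hxK : x ∈ K := hK.isCompact.isClosed.frontier_subset hx
  have hF0 : F x ≤ 0 := (hloc.self_of_nhds).1 hxK
  have hd : DifferentiableAt ℝ F x := (hF.differentiable (by simp)).differentiableAt
  have key : ∀ ν : V, IsOuterNormal K x ν → ν = ‖gradient F x‖⁻¹ • gradient F x := by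
    intro ν hν
    set G := gradient F x with hGd
    have hG0 : 0 < ‖G‖ := norm_pos_iff.2 hG
    have h1 : ∀ w : V, ⟪G, w⟫ < 0 → ⟪ν, w⟫ ≤ 0 := by
      intro w hw
      obtain ⟨s, hs, hsK⟩ := exists_small hd hloc hF0 hw
      have h2 := hν.2 _ hsK
      rw [add_sub_cancel_left, real_inner_smul_right] at h2
      by_contra hneg
      rw [not_le] at hneg
      have := mul_pos hs hneg
      linarith
    by_contra hne
    set e := ‖G‖⁻¹ • G with he
    have hn1 : ‖e‖ = 1 := by
      rw [he, norm_smul, norm_inv, norm_norm, inv_mul_cancel₀ hG0.ne']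
    have hlt : ⟪e, ν⟫ < 1 := by
      have h3 := real_inner_le_norm e ν
      rw [hn1, hν.1, one_mul] at h3
      exact lt_of_le_of_ne h3 fun h4 => hne ((inner_eq_one_iff_of_norm_eq_one hn1 hν.1).1 h4).symm
    have h5 : ⟪G, ν - e⟫ < 0 := by
      have h6 : ⟪e, ν - e⟫ < 0 := by
        rw [inner_sub_right, real_inner_self_eq_norm_sq, hn1]
        linarith
      have h7 : G = ‖G‖ • e := by
        rw [he, smul_smul, mul_inv_cancel₀ hG0.ne', one_smul]
      rw [h7, real_inner_smul_left]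
      exact mul_neg_of_pos_of_neg hG0 h6
    have h8 := h1 _ h5
    rw [inner_sub_right, real_inner_self_eq_norm_sq, hν.1, real_inner_comm] at h8
    linarith
  rw [key ν h, key ν' h']

theorem outerNormal_eq_of {K : Set V} (hK : IsTable K) {x ν : V} (hx : x ∈ frontier K)
    (h : IsOuterNormal K x ν) : outerNormal K x = ν :=
  normal_unique hK hx (Classical.epsilon_spec (p := IsOuterNormal K x) ⟨ν, h⟩) h

/-- strict support -/
theorem normal_strict {K : Set V} (hK : IsTable K) {y z ν : V} (hy : y ∈ K)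
    (h : IsOuterNormal K y ν) (hz : z ∈ K) (hzy : z ≠ y) : ⟪ν, z - y⟫ < 0 := by
  refine lt_of_le_of_ne (h.2 z hz) fun h0 => ?_
  have hmid := hK.strictConvex hy hz hzy.symm (a := 1 / 2) (b := 1 / 2) (by norm_num)
    (by norm_num) (by norm_num)
  set c := (1 / 2 : ℝ) • y + (1 / 2 : ℝ) • z with hc
  have hcont : Tendsto (fun s : ℝ => c + s • ν) (𝓝 0) (𝓝 c) := by
    have : Continuous fun s : ℝ => c + s • ν := by fun_prop
    simpa using this.tendsto 0
  have h3 : ∀ᶠ s : ℝ in 𝓝 0, c + s • ν ∈ K :=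
    hcont.eventually (mem_interior_iff_mem_nhds.1 hmid)
  obtain ⟨δ, hδ, hs⟩ := Metric.eventually_nhds_iff.1 h3
  have h4 := hs (y := δ / 2) (by rw [Real.dist_eq, sub_zero, abs_of_pos (by linarith)]; linarith)
  have h5 := h.2 _ h4
  have e : c + (δ / 2) • ν - y = (1 / 2 : ℝ) • (z - y) + (δ / 2) • ν := by
    rw [hc]; module
  rw [e, inner_add_right, real_inner_smul_right, real_inner_smul_right, h0,
    real_inner_self_eq_norm_sq, h.1] at h5
  linarith

/-- the maximum of a nonzero linear functional is attained at a boundary point with this normal -/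
theorem normal_of_max {K : Set V} {y a : V} (ha : a ≠ 0) (hy : y ∈ K)
    (hmax : ∀ z ∈ K, ⟪a, z⟫ ≤ ⟪a, y⟫) :
    y ∈ frontier K ∧ IsOuterNormal K y (‖a‖⁻¹ • a) := by
  have ha0 : 0 < ‖a‖ := norm_pos_iff.2 ha
  constructor
  · refine ⟨subset_closure hy, fun hint => ?_⟩
    have hcont : Tendsto (fun s : ℝ => y + s • a) (𝓝 0) (𝓝 y) := by
      have : Continuous fun s : ℝ => y + s • a := by fun_prop
      simpa using this.tendsto 0
    have h3 : ∀ᶠ s : ℝ in 𝓝 0, y + s • a ∈ K :=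
      hcont.eventually (mem_interior_iff_mem_nhds.1 hint)
    obtain ⟨δ, hδ, hs⟩ := Metric.eventually_nhds_iff.1 h3
    have h4 := hs (y := δ / 2) (by rw [Real.dist_eq, sub_zero, abs_of_pos (by linarith)]; linarith)
    have h5 := hmax _ h4
    rw [inner_add_right, real_inner_smul_right, real_inner_self_eq_norm_sq] at h5
    have : 0 < δ / 2 * ‖a‖ ^ 2 := by positivity
    linarith
  · refine ⟨by rw [norm_smul, norm_inv, norm_norm, inv_mul_cancel₀ ha0.ne'], fun z hz => ?_⟩
    rw [real_inner_smul_left, inner_sub_right]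
    have := hmax z hz
    exact mul_nonpos_of_nonneg_of_nonpos (by positivity) (by linarith)

/-- **Existence of the tangency point.** -/
theorem exists_fixed [FiniteDimensional ℝ V] {K : Set V} (hK : IsTable K) (A : V →L[ℝ] V)
    (hA : ∀ u, ⟪A u, u⟫ = 0) (hinj : ∀ u, A u = 0 → u = 0) {x : V} (hx : x ∉ K) :
    ∃ y ∈ K, ∀ z ∈ K, ⟪A (x - y), z⟫ ≤ ⟪A (x - y), y⟫ := by
  have hKc := hK.isCompact
  have hKne : K.Nonempty := hK.nonempty.mono interior_subset
  have hskew : ∀ u v : V, ⟪A u, v⟫ = - ⟪A v, u⟫ := by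
    intro u v
    have h := hA (u + v)
    rw [map_add, inner_add_left, inner_add_right, inner_add_right, hA u, hA v] at h
    linarith
  -- the support function
  have hattain : ∀ a : V, ∃ z ∈ K, ∀ w ∈ K, ⟪a, w⟫ ≤ ⟪a, z⟫ := by
    intro a
    obtain ⟨z, hz, hmax⟩ := hKc.exists_isMaxOn hKne
      (f := fun w => ⟪a, w⟫) (by fun_prop)
    exact ⟨z, hz, fun w hw => hmax hw⟩
  choose ζ hζK hζ using hattain
  have hcontζ : Continuous fun a : V => ⟪a, ζ a⟫ := by
    have e : (fun a : V => ⟪a, ζ a⟫) = fun a : V => sSup ((fun z : V => ⟪a, z⟫) '' K) := by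
      ext a
      symm
      refine IsGreatest.csSup_eq ⟨⟨ζ a, hζK a, rfl⟩, ?_⟩
      rintro _ ⟨w, hw, rfl⟩
      exact hζ a w hw
    rw [e]
    exact hKc.continuous_sSup (f := fun a z : V => ⟪a, z⟫) (by
      show Continuous fun p : V × V => ⟪p.1, p.2⟫
      fun_prop)
  obtain ⟨y, hy, hmin⟩ := hKc.exists_isMinOn hKne
    (f := fun y => ⟪A (x - y), ζ (A (x - y))⟫ - ⟪A x, y⟫) (by
      have h1 : Continuous fun y : V => A (x - y) := by fun_prop
      have h2 : Continuous fun y : V => ⟪A (x - y), ζ (A (x - y))⟫ := hcontζ.comp h1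
      fun_prop)
  refine ⟨y, hy, ?_⟩
  set a := A (x - y) with ha
  have ha0 : a ≠ 0 := by
    intro h0
    have := hinj _ h0
    rw [sub_eq_zero] at this
    rw [this] at hx
    exact hx hy
  set z := ζ a with hz
  -- the points `y + s (z - y)`
  have hconv : Convex ℝ K := hK.strictConvex.convex
  have hstep : ∀ n : ℕ, ∃ w ∈ K, ⟪A (z - y), w⟫ + ⟪A x, z - y⟫ ≤ 0 ∧
      ∀ v ∈ K, ⟪a - (1 / ((n : ℝ) + 1)) • A (z - y), v⟫ ≤
        ⟪a - (1 / ((n : ℝ) + 1)) • A (z - y), w⟫ := by
    intro n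
    set s : ℝ := 1 / ((n : ℝ) + 1) with hs
    have hs0 : 0 < s := by rw [hs]; positivity
    have hs1 : s ≤ 1 := by
      rw [hs, div_le_one (by positivity)]
      have : (0 : ℝ) ≤ n := Nat.cast_nonneg n
      linarith
    have hyn : y + s • (z - y) ∈ K := by
      have := hconv hy (hζK a) (a := 1 - s) (b := s) (by linarith) hs0.le (by ring)
      have e : y + s • (z - y) = (1 - s) • y + s • ζ a := by rw [hz]; module
      rw [e]; exact this
    have hg := hmin hyn
    simp only [mem_ofPred_eq] at hg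
    have e1 : A (x - (y + s • (z - y))) = a - s • A (z - y) := by
      rw [ha, ← map_smul, ← map_sub]
      congr 1
      abel
    rw [e1] at hg
    refine ⟨ζ (a - s • A (z - y)), hζK _, ?_, fun v hv => hζ _ v hv⟩
    set w := ζ (a - s • A (z - y)) with hw
    have h1 : ⟪a, w⟫ ≤ ⟪a, z⟫ := hζ a w (hζK _)
    rw [inner_sub_left, real_inner_smul_left, inner_add_right, real_inner_smul_right] at hg
    have h2 : s * (⟪A (z - y), w⟫ + ⟪A x, z - y⟫) ≤ 0 := by linarith
    by_contra hneg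
    rw [not_le] at hneg
    have := mul_pos hs0 hneg
    linarith
  choose w hwK hw1 hw2 using hstep
  obtain ⟨b, hb, φ, hφ, hlim⟩ := hKc.tendsto_subseq hwK
  have hs : Tendsto (fun n : ℕ => (1 / ((φ n : ℝ) + 1))) atTop (𝓝 0) :=
    tendsto_one_div_add_atTop_nhds_zero_nat.comp hφ.tendsto_atTop
  -- the limit maximizes
  have hbmax : ∀ v ∈ K, ⟪a, v⟫ ≤ ⟪a, b⟫ := by
    intro v hv
    have hd : Tendsto (fun n : ℕ => a - (1 / ((φ n : ℝ) + 1)) • A (z - y)) atTop (𝓝 a) := by
      have := (tendsto_const_nhds (x := a)).sub (hs.smul_const (A (z - y)))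
      simpa using this
    have t1 : Tendsto (fun n : ℕ => ⟪a - (1 / ((φ n : ℝ) + 1)) • A (z - y), v⟫) atTop
        (𝓝 ⟪a, v⟫) := hd.inner tendsto_const_nhds
    have t2 : Tendsto (fun n : ℕ => ⟪a - (1 / ((φ n : ℝ) + 1)) • A (z - y), w (φ n)⟫) atTop
        (𝓝 ⟪a, b⟫) := hd.inner hlim
    exact le_of_tendsto_of_tendsto' t1 t2 fun n => hw2 (φ n) v hv
  have hbz : b = z := by
    by_contra hne
    have hn := normal_of_max ha0 (hζK a) (hζ a)
    have h1 := normal_strict hK (hζK a) hn.2 hb hne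
    rw [real_inner_smul_left, inner_sub_right] at h1
    have h2 := hbmax z (hζK a)
    have h3 : 0 ≤ ‖a‖⁻¹ * (⟪a, b⟫ - ⟪a, ζ a⟫) := mul_nonneg (by positivity) (by
      rw [← hz]; linarith)
    linarith
  have hfin : ⟪A (z - y), z⟫ + ⟪A x, z - y⟫ ≤ 0 := by
    have t : Tendsto (fun n : ℕ => ⟪A (z - y), w (φ n)⟫ + ⟪A x, z - y⟫) atTop
        (𝓝 (⟪A (z - y), z⟫ + ⟪A x, z - y⟫)) := by
      refine Tendsto.add ?_ tendsto_const_nhds
      rw [← hbz] at *
      exact tendsto_const_nhds.inner hlim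
    exact le_of_tendsto' t fun n => hw1 (φ n)
  intro v hv
  refine (hζ a v hv).trans ?_
  rw [← hz]
  have e1 : ⟪A (z - y), z⟫ = - ⟪A y, z⟫ := by rw [map_sub, inner_sub_left, hA z]; ring
  have e2 : ⟪a, z⟫ = ⟪A x, z⟫ - ⟪A y, z⟫ := by rw [ha, map_sub, inner_sub_left]
  have e3 : ⟪a, y⟫ = ⟪A x, y⟫ := by rw [ha, map_sub, inner_sub_left, hA y]; ring
  rw [e1, inner_sub_right] at hfin
  rw [e2, e3]
  linarith

/-- **Uniqueness of the tangency point.** -/
theorem fixed_unique {K : Set V} (hK : IsTable K) (A : V →L[ℝ] V)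
    (hA : ∀ u, ⟪A u, u⟫ = 0) (hinj : ∀ u, A u = 0 → u = 0) {x y y' : V} (hx : x ∉ K)
    (hy : y ∈ K) (h : ∀ z ∈ K, ⟪A (x - y), z⟫ ≤ ⟪A (x - y), y⟫)
    (hy' : y' ∈ K) (h' : ∀ z ∈ K, ⟪A (x - y'), z⟫ ≤ ⟪A (x - y'), y'⟫) : y = y' := by
  have hskew : ∀ u v : V, ⟪A u, v⟫ = - ⟪A v, u⟫ := by
    intro u v
    have h := hA (u + v)
    rw [map_add, inner_add_left, inner_add_right, inner_add_right, hA u, hA v] at h
    linarith
  by_contra hne
  have ha0 : A (x - y) ≠ 0 := by
    intro h0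
    have := hinj _ h0
    rw [sub_eq_zero] at this
    rw [this] at hx
    exact hx hy
  have hn := normal_of_max ha0 hy h
  have h1 := normal_strict hK hy hn.2 hy' (Ne.symm hne)
  rw [real_inner_smul_left] at h1
  have h2 : ⟪A (x - y), y' - y⟫ < 0 := by
    have : 0 < ‖A (x - y)‖⁻¹ := by
      have := norm_pos_iff.2 ha0
      positivity
    by_contra hc
    rw [not_lt] at hc
    have := mul_nonneg this.le hc
    linarith
  have h3 := h' y hy
  have e1 : ⟪A (x - y), y' - y⟫ = ⟪A x, y'⟫ - ⟪A x, y⟫ - ⟪A y, y'⟫ := by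
    rw [map_sub, inner_sub_left, inner_sub_right, inner_sub_right, hA y]; ring
  have e2 : ⟪A (x - y'), y⟫ = ⟪A x, y⟫ + ⟪A y, y'⟫ := by
    rw [map_sub, inner_sub_left, hskew y' y]; ring
  have e3 : ⟪A (x - y'), y'⟫ = ⟪A x, y'⟫ := by
    rw [map_sub, inner_sub_left, hA y']; ring
  rw [e2, e3] at h3
  rw [e1] at h2
  linarith

end General

end Pool.Agent.H30OB
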